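import Mathlib

set_option autoImplicit false

namespace Pool.Agent.Lib.Biharm

/-- The space of real-analytic functions on the unit circle: functions `g` on the circle such that
`t ↦ g (e^{it})` is real-analytic on the real line. -/
def RealAnalyticCircle : Submodule ℂ (Circle → ℂ) where
  carrier := {g | AnalyticOnNhd ℝ (fun t : ℝ => g (Circle.exp t)) Set.univ}
  add_mem' := fun {_ _} ha hb => AnalyticOnNhd.add ha hb
  zero_mem' := analyticOnNhd_const
  smul_mem' := fun c _ ha => AnalyticOnNhd.smul (f := fun _ : ℝ => c) analyticOnNhd_const ha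

/-- The open annulus `ρ < |w| < 1/ρ` around the unit circle. -/
def Annulus (ρ : ℝ) : Set ℂ := {w : ℂ | ρ < ‖w‖ ∧ ‖w‖ < ρ⁻¹}

/-- Analytic functionals on the unit circle: linear functionals on the space of real-analytic
functions that are continuous for its usual (inductive limit) topology, i.e. for each `0 < ρ < 1`
bounded, with respect to the sup norm on the annulus, on the functions that are restrictions of
bounded holomorphic functions on the annulus. -/
structure AnalyticFunctional where
  /-- the linear functional -/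
  toFun : RealAnalyticCircle →ₗ[ℂ] ℂ
  /-- continuity on each step of the inductive limit -/
  bound : ∀ ρ : ℝ, 0 < ρ → ρ < 1 → ∃ C : ℝ, ∀ (g : RealAnalyticCircle) (G : ℂ → ℂ) (M : ℝ),
    DifferentiableOn ℂ G (Annulus ρ) → (∀ w ∈ Annulus ρ, ‖G w‖ ≤ M) →
    (∀ ξ : Circle, G (ξ : ℂ) = (g : Circle → ℂ) ξ) → ‖toFun g‖ ≤ C * M

/-- The Poisson kernel of the unit disk. -/
noncomputable def poissonKernelDisk (z ξ : ℂ) : ℝ := (1 - ‖z‖ ^ 2) / ‖ξ - z‖ ^ 2

/-- The biharmonic Poisson kernel `P log P` as a function of the boundary point. -/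
noncomputable def biharmonicKernel (z : ℂ) : Circle → ℂ := fun ξ =>
  ((poissonKernelDisk z ξ * Real.log (poissonKernelDisk z ξ) : ℝ) : ℂ)

theorem biharmonicKernel_mem {z : ℂ} (hz : ‖z‖ < 1) : biharmonicKernel z ∈ RealAnalyticCircle := by
  intro t _
  have hexp : AnalyticAt ℝ (fun t : ℝ => Complex.exp (t * Complex.I) - z) t := by
    have h1 : AnalyticAt ℝ (fun t : ℝ => (t : ℂ) * Complex.I) t :=
      (Complex.ofRealCLM.analyticAt t).mul analyticAt_const
    have h2 : AnalyticAt ℝ Complex.exp ((t : ℂ) * Complex.I) :=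
      (analyticAt_cexp).restrictScalars
    exact (h2.comp (f := fun t : ℝ => (t : ℂ) * Complex.I) h1).sub analyticAt_const
  have hre : AnalyticAt ℝ (fun t : ℝ => (Complex.exp (t * Complex.I) - z).re) t :=
    (Complex.reCLM.analyticAt _).comp hexp
  have him : AnalyticAt ℝ (fun t : ℝ => (Complex.exp (t * Complex.I) - z).im) t :=
    (Complex.imCLM.analyticAt _).comp hexp
  have hsq : AnalyticAt ℝ (fun t : ℝ => ‖Complex.exp (t * Complex.I) - z‖ ^ 2) t := by
    have : (fun t : ℝ => ‖Complex.exp (t * Complex.I) - z‖ ^ 2) =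
        fun t : ℝ => (Complex.exp (t * Complex.I) - z).re ^ 2 +
          (Complex.exp (t * Complex.I) - z).im ^ 2 := by
      ext s
      rw [← Complex.normSq_eq_norm_sq, Complex.normSq_apply]
      ring
    rw [this]
    exact (hre.pow 2).add (him.pow 2)
  have hne : ‖Complex.exp (t * Complex.I) - z‖ ^ 2 ≠ 0 := by
    have h1 : ‖Complex.exp (t * Complex.I)‖ = 1 := Complex.norm_exp_ofReal_mul_I t
    have h2 : Complex.exp (t * Complex.I) - z ≠ 0 := by
      intro h
      rw [sub_eq_zero] at h
      rw [h] at h1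
      linarith
    positivity
  have hpos : 0 < (1 - ‖z‖ ^ 2) / ‖Complex.exp (t * Complex.I) - z‖ ^ 2 := by
    have h1 : 0 < 1 - ‖z‖ ^ 2 := by nlinarith [norm_nonneg z]
    positivity
  have hP : AnalyticAt ℝ (fun t : ℝ => (1 - ‖z‖ ^ 2) / ‖Complex.exp (t * Complex.I) - z‖ ^ 2) t :=
    analyticAt_const.div hsq hne
  have hL := hP.mul (hP.log hpos)
  have hfin := (Complex.ofRealCLM.analyticAt _).comp hL
  refine hfin.congr ?_
  filter_upwards with s
  simp only [biharmonicKernel, poissonKernelDisk, Circle.coe_exp, Function.comp]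
  rfl

/-- The biharmonic Poisson transform of an analytic functional, at a point of the unit disk. -/
noncomputable def biharmonicTransform (ν : AnalyticFunctional) (z : ℂ) (hz : ‖z‖ < 1) : ℂ :=
  ν.toFun ⟨biharmonicKernel z, biharmonicKernel_mem hz⟩

end Pool.Agent.Lib.Biharm
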