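import Mathlib
import Pool.Agent.Lib.MP_a0f451_an.Defs

set_option autoImplicit false

namespace Pool.Agent.Lib.Biharm

open Complex Set Metric Filter Topology

theorem annulus_isOpen (ρ : ℝ) : IsOpen (Annulus ρ) :=
  (isOpen_lt continuous_const continuous_norm).inter (isOpen_lt continuous_norm continuous_const)

theorem annulus_ne_zero {ρ : ℝ} (hρ : 0 < ρ) {w : ℂ} (hw : w ∈ Annulus ρ) : w ≠ 0 := by
  rintro rfl
  have := hw.1
  rw [norm_zero] at this
  linarith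

theorem annulus_zpow {ρ : ℝ} (hρ : 0 < ρ) {w : ℂ} (hw : w ∈ Annulus ρ) (n : ℤ) :
    ‖w ^ n‖ ≤ (ρ⁻¹) ^ n.natAbs := by
  rw [norm_zpow]
  rcases Int.natAbs_eq n with h | h
  · rw [h, zpow_natCast, Int.natAbs_natCast]
    exact pow_le_pow_left₀ (norm_nonneg _) hw.2.le _
  · rw [h, zpow_neg, zpow_natCast, Int.natAbs_neg, Int.natAbs_natCast, ← inv_pow]
    refine pow_le_pow_left₀ (by positivity) ?_ _
    exact inv_anti₀ hρ hw.1.le

/-- characters -/
noncomputable def char (n : ℤ) : RealAnalyticCircle :=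
  ⟨fun ξ => (ξ : ℂ) ^ n, by
    intro t _
    have h1 : AnalyticAt ℝ (fun t : ℝ => (t : ℂ) * Complex.I) t :=
      (Complex.ofRealCLM.analyticAt t).mul analyticAt_const
    have h2 : AnalyticAt ℝ Complex.exp ((t : ℂ) * Complex.I) :=
      (analyticAt_cexp).restrictScalars
    have h3 := (h2.comp (f := fun t : ℝ => (t : ℂ) * Complex.I) h1)
    have h4 := h3.zpow (n := n) (Complex.exp_ne_zero _)
    refine h4.congr ?_
    filter_upwards with s
    simp [Circle.coe_exp]⟩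

theorem char_apply (n : ℤ) (ξ : Circle) : (char n : Circle → ℂ) ξ = (ξ : ℂ) ^ n := rfl

theorem nu_hasSum {ι : Type*} (ν : AnalyticFunctional) (g : RealAnalyticCircle) (a : ι → ℂ)
    (n : ι → ℤ) {ρ : ℝ} (hρ0 : 0 < ρ) (hρ1 : ρ < 1)
    (hs : Summable (fun i => ‖a i‖ * (ρ⁻¹) ^ (n i).natAbs))
    (hg : ∀ ξ : Circle, HasSum (fun i => a i * (ξ : ℂ) ^ (n i)) ((g : Circle → ℂ) ξ)) :
    HasSum (fun i => a i * ν.toFun (char (n i))) (ν.toFun g) := by
  classical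
  obtain ⟨C, hC⟩ := ν.bound ρ hρ0 hρ1
  let u : ι → ℝ := fun i => ‖a i‖ * (ρ⁻¹) ^ (n i).natAbs
  have hu0 : ∀ i, 0 ≤ u i := fun i => by positivity
  -- tail
  have htail : ∀ F : Finset ι, ‖ν.toFun g - ∑ i ∈ F, a i * ν.toFun (char (n i))‖ ≤
      C * ∑' i : {i // i ∉ F}, u i := by
    intro F
    let gF : RealAnalyticCircle := g - ∑ i ∈ F, a i • char (n i)
    let G : ℂ → ℂ := fun w => ∑' i : {i // i ∉ F}, a i * w ^ (n i)
    have hsF : Summable (fun i : {i // i ∉ F} => u i) := hs.subtype _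
    have hb : ∀ (i : {i // i ∉ F}) (w : ℂ), w ∈ Annulus ρ → ‖a i * w ^ (n i)‖ ≤ u i := by
      intro i w hw
      rw [norm_mul]
      exact mul_le_mul_of_nonneg_left (annulus_zpow hρ0 hw _) (norm_nonneg _)
    have h1 : DifferentiableOn ℂ G (Annulus ρ) := by
      refine differentiableOn_tsum_of_summable_norm hsF ?_ (annulus_isOpen ρ) hb
      intro i w hw
      refine DifferentiableAt.differentiableWithinAt ?_
      refine DifferentiableAt.const_mul ?_ _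
      exact differentiableAt_id.zpow (Or.inl (annulus_ne_zero hρ0 hw))
    have h2 : ∀ w ∈ Annulus ρ, ‖G w‖ ≤ ∑' i : {i // i ∉ F}, u i := by
      intro w hw
      exact tsum_of_norm_bounded hsF.hasSum (fun i => hb i w hw)
    have h3 : ∀ ξ : Circle, G (ξ : ℂ) = (gF : Circle → ℂ) ξ := by
      intro ξ
      have h4 := hg ξ
      have h5 : (gF : Circle → ℂ) ξ = (g : Circle → ℂ) ξ - ∑ i ∈ F, a i * (ξ : ℂ) ^ (n i) := by
        simp only [gF, Submodule.coe_sub, Submodule.coe_sum, Submodule.coe_smul, Pi.sub_apply,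
          Finset.sum_apply, Pi.smul_apply, smul_eq_mul]
        rfl
      rw [h5]
      have h6 := (Finset.hasSum_compl_iff F).mpr (by
        have : HasSum (fun i => a i * (ξ : ℂ) ^ (n i))
          (((g : Circle → ℂ) ξ - ∑ i ∈ F, a i * (ξ : ℂ) ^ (n i)) +
            ∑ i ∈ F, a i * (ξ : ℂ) ^ (n i)) := by
          rw [sub_add_cancel]
          exact h4
        exact this)
      exact h6.tsum_eq
    have h7 := hC gF G _ h1 h2 h3
    have h8 : ν.toFun gF = ν.toFun g - ∑ i ∈ F, a i * ν.toFun (char (n i)) := by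
      simp only [gF, map_sub, map_sum, map_smul, smul_eq_mul]
    rw [h8] at h7
    exact h7
  have hlim : Tendsto (fun F : Finset ι => C * ∑' i : {i // i ∉ F}, u i) atTop (𝓝 0) := by
    have := (tendsto_tsum_compl_atTop_zero u).const_mul C
    rwa [mul_zero] at this
  rw [HasSum]
  rw [tendsto_iff_norm_sub_tendsto_zero]
  refine squeeze_zero (fun _ => norm_nonneg _) ?_ hlim
  intro F
  rw [norm_sub_rev]
  exact htail F

/-- coefficients of the Poisson kernel -/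
noncomputable def pc (r : ℝ) (m : ℤ) : ℝ := r ^ m.natAbs

/-- coefficients of the logarithm of the Poisson kernel -/
noncomputable def lc (r : ℝ) (k : ℤ) : ℝ :=
  if k = 0 then Real.log (1 - r ^ 2) else r ^ k.natAbs / k.natAbs

theorem hsc {ι E : Type*} [AddCommMonoid E] [TopologicalSpace E] {f g : ι → E} {a : E}
    (h : ∀ i, f i = g i) (hg : HasSum g a) : HasSum f a := by
  have : f = g := funext h
  rwa [this]

theorem geom_summable {q : ℝ} (hq0 : 0 ≤ q) (hq1 : q < 1) :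
    Summable (fun m : ℤ => q ^ m.natAbs) := by
  have h1 : HasSum (fun n : ℕ => q ^ n) (1 - q)⁻¹ := hasSum_geometric_of_lt_one hq0 hq1
  have h2 : HasSum (fun n : ℕ => q ^ (n + 1)) (q * (1 - q)⁻¹) := by
    have h := h1.mul_left q
    refine hsc (fun n => ?_) h
    rw [pow_succ']
  refine (HasSum.of_nat_of_neg_add_one (f := fun m : ℤ => q ^ m.natAbs) (m := (1 - q)⁻¹)
    (m' := q * (1 - q)⁻¹) ?_ ?_).summable
  · refine hsc (fun n => ?_) h1
    simp
  · refine hsc (fun n => ?_) h2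
    have : (-((n : ℤ) + 1)).natAbs = n + 1 := by omega
    rw [this]

theorem pc_nonneg {r : ℝ} (hr0 : 0 ≤ r) (m : ℤ) : 0 ≤ pc r m := by
  unfold pc; positivity

theorem lc_abs_le {r : ℝ} (hr0 : 0 ≤ r) (k : ℤ) :
    |lc r k| ≤ (1 + |Real.log (1 - r ^ 2)|) * r ^ k.natAbs := by
  unfold lc
  split_ifs with h
  · subst h
    simp
  · have hk : (1 : ℝ) ≤ k.natAbs := by
      have : 1 ≤ k.natAbs := Nat.one_le_iff_ne_zero.mpr (by simpa using h)
      exact_mod_cast this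
    rw [abs_div, abs_of_nonneg (pow_nonneg hr0 _), abs_of_nonneg (by positivity : (0 : ℝ) ≤ k.natAbs)]
    calc r ^ k.natAbs / k.natAbs ≤ r ^ k.natAbs := div_le_self (pow_nonneg hr0 _) hk
      _ ≤ (1 + |Real.log (1 - r ^ 2)|) * r ^ k.natAbs := by
        have := abs_nonneg (Real.log (1 - r ^ 2))
        have h2 := pow_nonneg hr0 k.natAbs
        nlinarith

theorem pair_summable {r ρ : ℝ} (hr0 : 0 ≤ r) (hρ : 0 < ρ) (hrρ : r < ρ) (hρ1 : ρ < 1) :
    Summable (fun p : ℤ × ℤ => pc r p.1 * |lc r p.2| * (ρ⁻¹) ^ (p.1 + p.2).natAbs) := by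
  have hq0 : 0 ≤ r / ρ := by positivity
  have hq1 : r / ρ < 1 := (div_lt_one hρ).mpr hrρ
  have h1 := geom_summable hq0 hq1
  have h2 := (h1.mul_left (1 + |Real.log (1 - r ^ 2)|))
  have h3 := h1.mul_of_nonneg h2 (fun m => by positivity) (fun m => by positivity)
  refine Summable.of_nonneg_of_le (fun p => ?_) (fun p => ?_) h3
  · have := pc_nonneg hr0 p.1
    positivity
  · have hinv : 1 ≤ ρ⁻¹ := (one_le_inv₀ hρ).mpr hρ1.le
    have h4 : (ρ⁻¹) ^ (p.1 + p.2).natAbs ≤ (ρ⁻¹) ^ (p.1.natAbs + p.2.natAbs) :=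
      pow_le_pow_right₀ hinv (Int.natAbs_add_le _ _)
    calc pc r p.1 * |lc r p.2| * (ρ⁻¹) ^ (p.1 + p.2).natAbs
        ≤ r ^ p.1.natAbs * ((1 + |Real.log (1 - r ^ 2)|) * r ^ p.2.natAbs) *
            (ρ⁻¹) ^ (p.1.natAbs + p.2.natAbs) := by
          gcongr
          · exact le_rfl
          · exact lc_abs_le hr0 _
      _ = (r / ρ) ^ p.1.natAbs * ((1 + |Real.log (1 - r ^ 2)|) * (r / ρ) ^ p.2.natAbs) := by
          rw [div_eq_mul_inv, mul_pow, mul_pow, pow_add]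
          ring

theorem poisson_hasSum {r : ℝ} (hr0 : 0 ≤ r) (hr1 : r < 1) (ζ : Circle) :
    HasSum (fun m : ℤ => (pc r m : ℂ) * (ζ : ℂ) ^ m) ((poissonKernelDisk r ζ : ℝ) : ℂ) := by
  have hζn : ‖(ζ : ℂ)‖ = 1 := Circle.norm_coe ζ
  have hζ0 : (ζ : ℂ) ≠ 0 := Circle.coe_ne_zero ζ
  have hn1 : ‖(r : ℂ) * ζ‖ < 1 := by
    rw [norm_mul, hζn, mul_one, Complex.norm_real, Real.norm_of_nonneg hr0]; exact hr1
  have hn2 : ‖(r : ℂ) * (ζ : ℂ)⁻¹‖ < 1 := by
    rw [norm_mul, norm_inv, hζn, inv_one, mul_one, Complex.norm_real, Real.norm_of_nonneg hr0]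
    exact hr1
  have h1 := hasSum_geometric_of_norm_lt_one hn1
  have h2 := (hasSum_geometric_of_norm_lt_one hn2).mul_left ((r : ℂ) * (ζ : ℂ)⁻¹)
  have h3 := HasSum.of_nat_of_neg_add_one (f := fun m : ℤ => (pc r m : ℂ) * (ζ : ℂ) ^ m)
    (m := (1 - (r : ℂ) * ζ)⁻¹) (m' := (r : ℂ) * (ζ : ℂ)⁻¹ * (1 - (r : ℂ) * (ζ : ℂ)⁻¹)⁻¹) ?_ ?_
  · convert h3 using 1
    have hne1 : (1 - (r : ℂ) * ζ) ≠ 0 := by
      intro h
      rw [sub_eq_zero] at h
      rw [← h, norm_one] at hn1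
      exact lt_irrefl _ hn1
    have hne2 : (1 - (r : ℂ) * (ζ : ℂ)⁻¹) ≠ 0 := by
      intro h
      rw [sub_eq_zero] at h
      rw [← h, norm_one] at hn2
      exact lt_irrefl _ hn2
    have hconj : (ζ : ℂ)⁻¹ = (starRingEnd ℂ) ζ := by
      rw [← Circle.coe_inv, Circle.coe_inv_eq_conj]
    have hnorm : ((‖(ζ : ℂ) - r‖ ^ 2 : ℝ) : ℂ) = (1 - (r : ℂ) * ζ) * (1 - (r : ℂ) * (ζ : ℂ)⁻¹) := by
      rw [← Complex.normSq_eq_norm_sq, ← Complex.mul_conj, map_sub, Complex.conj_ofReal, ← hconj]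
      field_simp
    unfold poissonKernelDisk
    rw [Complex.ofReal_div, hnorm, Complex.norm_real, Real.norm_of_nonneg hr0]
    push_cast
    have hne2' : (ζ : ℂ) - r ≠ 0 := by
      intro h
      apply hne2
      rw [sub_eq_zero] at h
      rw [← h]
      field_simp
      exact sub_self 1
    field_simp
    ring
  · refine hsc (fun n => ?_) h1
    simp [pc, mul_pow]
  · refine hsc (fun n => ?_) h2
    have : (-((n : ℤ) + 1)).natAbs = n + 1 := by omega
    rw [pc, this, zpow_neg, ← Nat.cast_succ, zpow_natCast, Nat.succ_eq_add_one]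
    push_cast
    rw [pow_succ, pow_succ, mul_pow, inv_pow, mul_inv]
    ring

theorem log_hasSum {r : ℝ} (hr0 : 0 ≤ r) (hr1 : r < 1) (ζ : Circle) :
    HasSum (fun k : ℤ => (lc r k : ℂ) * (ζ : ℂ) ^ k)
      ((Real.log (poissonKernelDisk r ζ) : ℝ) : ℂ) := by
  have hζn : ‖(ζ : ℂ)‖ = 1 := Circle.norm_coe ζ
  have hζ0 : (ζ : ℂ) ≠ 0 := Circle.coe_ne_zero ζ
  have hn1 : ‖(r : ℂ) * ζ‖ < 1 := by
    rw [norm_mul, hζn, mul_one, Complex.norm_real, Real.norm_of_nonneg hr0]; exact hr1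
  have h1 := Complex.hasSum_taylorSeries_neg_log hn1
  have h1' : HasSum (fun n : ℕ => ((r : ℂ) * ζ) ^ (n + 1) / ((n + 1 : ℕ) : ℂ))
      (-Complex.log (1 - r * ζ)) := by
    have := (hasSum_nat_add_iff' 1).mpr h1
    simpa using this
  have hconj : (ζ : ℂ)⁻¹ = (starRingEnd ℂ) ζ := by
    rw [← Circle.coe_inv, Circle.coe_inv_eq_conj]
  have h2 : HasSum (fun n : ℕ => ((r : ℂ) * (ζ : ℂ)⁻¹) ^ (n + 1) / ((n + 1 : ℕ) : ℂ))
      ((starRingEnd ℂ) (-Complex.log (1 - r * ζ))) := by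
    have h := (Complex.hasSum_conj' (f := fun n : ℕ => ((r : ℂ) * ζ) ^ (n + 1) / ((n + 1 : ℕ) : ℂ))
      (x := (-Complex.log (1 - r * ζ)))).mpr h1'
    refine hsc (fun n => ?_) h
    rw [hconj]
    simp
  have hpos : 0 < 1 - r ^ 2 := by nlinarith
  have hne1 : (1 - (r : ℂ) * ζ) ≠ 0 := by
    intro h
    rw [sub_eq_zero] at h
    rw [← h, norm_one] at hn1
    exact lt_irrefl _ hn1
  have h0 : HasSum (fun n : ℕ => if n = 0 then ((Real.log (1 - r ^ 2) : ℝ) : ℂ) else 0)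
      ((Real.log (1 - r ^ 2) : ℝ) : ℂ) := hasSum_ite_eq 0 _
  have h3 := HasSum.of_nat_of_neg_add_one (f := fun k : ℤ => (lc r k : ℂ) * (ζ : ℂ) ^ k)
    (m := ((Real.log (1 - r ^ 2) : ℝ) : ℂ) + -Complex.log (1 - r * ζ))
    (m' := (starRingEnd ℂ) (-Complex.log (1 - r * ζ))) ?_ ?_
  · have hval : ((Real.log (poissonKernelDisk r ζ) : ℝ) : ℂ) =
        ((Real.log (1 - r ^ 2) : ℝ) : ℂ) + -Complex.log (1 - r * ζ) +
          (starRingEnd ℂ) (-Complex.log (1 - r * ζ)) := by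
      have hre : -Complex.log (1 - r * ζ) + (starRingEnd ℂ) (-Complex.log (1 - r * ζ)) =
          ((-(2 * Real.log ‖1 - (r : ℂ) * ζ‖) : ℝ) : ℂ) := by
        rw [Complex.add_conj]
        simp [Complex.log_re]
      rw [add_assoc, hre, ← Complex.ofReal_add]
      congr 1
      unfold poissonKernelDisk
      have hnorm : ‖(ζ : ℂ) - r‖ = ‖1 - (r : ℂ) * ζ‖ := by
        have e1 : (starRingEnd ℂ) (1 - (r : ℂ) * ζ) = (ζ : ℂ)⁻¹ * (ζ - r) := by
          rw [map_sub, map_mul, map_one, Complex.conj_ofReal, ← hconj]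
          field_simp
        rw [← Complex.norm_conj (1 - (r : ℂ) * ζ), e1, norm_mul, norm_inv, hζn]
        simp
      rw [hnorm, Complex.norm_real, Real.norm_of_nonneg hr0, Real.log_div hpos.ne'
        (pow_ne_zero 2 (norm_ne_zero_iff.mpr hne1)), Real.log_pow]
      push_cast
      ring
    rw [hval]
    exact h3
  · refine hsc (fun n => ?_) (h0.add h1)
    by_cases hn : n = 0
    · subst hn
      simp [lc]
    · rw [if_neg hn]
      have : (n : ℤ) ≠ 0 := by exact_mod_cast hn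
      simp only [lc, this, if_false, Int.natAbs_natCast, zpow_natCast, zero_add]
      push_cast
      rw [mul_pow]
      ring
  · refine hsc (fun n => ?_) h2
    have h4 : (-((n : ℤ) + 1)).natAbs = n + 1 := by omega
    have h5 : (-((n : ℤ) + 1)) ≠ 0 := by omega
    rw [lc, if_neg h5, h4, zpow_neg, ← Nat.cast_succ, zpow_natCast, Nat.succ_eq_add_one]
    push_cast
    rw [mul_pow, inv_pow]
    ring

theorem transform_hasSum (ν : AnalyticFunctional) {r : ℝ} (hr0 : 0 ≤ r) (hr1 : r < 1)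
    (ω : Circle) (hz : ‖(r : ℂ) * ω‖ < 1) :
    HasSum (fun p : ℤ × ℤ => ((pc r p.1 : ℂ) * (lc r p.2 : ℂ) * (ω : ℂ) ^ (-(p.1 + p.2))) *
      ν.toFun (char (p.1 + p.2))) (biharmonicTransform ν ((r : ℂ) * ω) hz) := by
  obtain ⟨ρ, hrρ, hρ1⟩ := exists_between hr1
  have hρ0 : 0 < ρ := hr0.trans_lt hrρ
  have hωn : ‖(ω : ℂ)‖ = 1 := Circle.norm_coe ω
  have hω0 : (ω : ℂ) ≠ 0 := Circle.coe_ne_zero ω
  refine nu_hasSum ν ⟨biharmonicKernel ((r : ℂ) * ω), biharmonicKernel_mem hz⟩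
    (fun p : ℤ × ℤ => ((pc r p.1 : ℂ) * (lc r p.2 : ℂ) * (ω : ℂ) ^ (-(p.1 + p.2))))
    (fun p => p.1 + p.2) hρ0 hρ1 ?_ ?_
  · refine (summable_congr (fun p => ?_)).mpr (pair_summable hr0 hρ0 hrρ hρ1)
    rw [norm_mul, norm_mul, norm_zpow, hωn, one_zpow, mul_one, Complex.norm_real,
      Complex.norm_real, Real.norm_of_nonneg (pc_nonneg hr0 _), Real.norm_eq_abs]
  · intro ξ
    have h1 := poisson_hasSum hr0 hr1 (ξ * ω⁻¹)
    have h2 := log_hasSum hr0 hr1 (ξ * ω⁻¹)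
    have hs : Summable (fun p : ℤ × ℤ => ((pc r p.1 : ℂ) * ((ξ * ω⁻¹ : Circle) : ℂ) ^ p.1) *
        ((lc r p.2 : ℂ) * ((ξ * ω⁻¹ : Circle) : ℂ) ^ p.2)) := by
      refine Summable.of_norm_bounded (pair_summable hr0 hρ0 hrρ hρ1) (fun p => ?_)
      rw [norm_mul, norm_mul, norm_mul, norm_zpow, norm_zpow, Circle.norm_coe, one_zpow, one_zpow,
        mul_one, mul_one, Complex.norm_real, Complex.norm_real,
        Real.norm_of_nonneg (pc_nonneg hr0 _), Real.norm_eq_abs]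
      have h3 : 1 ≤ (ρ⁻¹) ^ (p.1 + p.2).natAbs := one_le_pow₀ ((one_le_inv₀ hρ0).mpr hρ1.le)
      have h4 : 0 ≤ pc r p.1 * |lc r p.2| := mul_nonneg (pc_nonneg hr0 _) (abs_nonneg _)
      nlinarith
    have h5 := h1.mul h2 hs
    have hker : (biharmonicKernel ((r : ℂ) * ω)) ξ =
        ((poissonKernelDisk r ((ξ * ω⁻¹ : Circle) : ℂ) : ℝ) : ℂ) *
        ((Real.log (poissonKernelDisk r ((ξ * ω⁻¹ : Circle) : ℂ)) : ℝ) : ℂ) := by
      have e1 : poissonKernelDisk ((r : ℂ) * ω) ξ =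
          poissonKernelDisk r ((ξ * ω⁻¹ : Circle) : ℂ) := by
        unfold poissonKernelDisk
        have e2 : (ξ : ℂ) - (r : ℂ) * ω = ω * (((ξ * ω⁻¹ : Circle) : ℂ) - r) := by
          rw [Circle.coe_mul, Circle.coe_inv]
          field_simp
        rw [e2, norm_mul, norm_mul, hωn]
        simp
      unfold biharmonicKernel
      rw [e1, Complex.ofReal_mul]
    change HasSum _ ((biharmonicKernel ((r : ℂ) * ω)) ξ)
    rw [hker]
    refine hsc (fun p => ?_) h5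
    rw [Circle.coe_mul, Circle.coe_inv, zpow_neg, mul_zpow, mul_zpow, inv_zpow, inv_zpow,
      zpow_add₀ hω0, zpow_add₀ (Circle.coe_ne_zero ξ), mul_inv]
    ring

end Pool.Agent.Lib.Biharm
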