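import Mathlib
import Pool.Agent.Lib.MP_a0f451_an.Series

set_option autoImplicit false

namespace Pool.Agent.Lib.Biharm

open Complex Set Metric Filter Topology

/-- normalising factor -/
noncomputable def LL (r : ℝ) : ℝ := -Real.log (1 - r ^ 2)

theorem one_sub_pow_le' {r : ℝ} (hr0 : 0 ≤ r) (m : ℕ) : 1 - r ^ m ≤ m * (1 - r) := by
  have := one_add_mul_le_pow (a := r - 1) (by linarith) m
  have h2 : (1 + (r - 1)) ^ m = r ^ m := by ring
  rw [h2] at this
  linarith

theorem pow_diff {r : ℝ} (hr0 : 0 < r) (hr1 : r < 1) {a b N : ℕ} (h1 : a ≤ b + N)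
    (h2 : b ≤ a + N) : |r ^ a - r ^ b| ≤ N * (1 - r) * r ^ b / r ^ N := by
  rw [le_div_iff₀ (by positivity)]
  rcases le_total a b with h | h
  · have e1 : r ^ b = r ^ a * r ^ (b - a) := by rw [← pow_add]; congr 1; omega
    have e2 : r ^ a - r ^ b = r ^ a * (1 - r ^ (b - a)) := by rw [e1]; ring
    have e3 : 0 ≤ 1 - r ^ (b - a) := by
      have := pow_le_one₀ hr0.le hr1.le (n := b - a)
      linarith
    rw [e2, abs_of_nonneg (by positivity)]
    have e4 : 1 - r ^ (b - a) ≤ N * (1 - r) := by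
      refine (one_sub_pow_le' hr0.le _).trans ?_
      have : ((b - a : ℕ) : ℝ) ≤ N := by exact_mod_cast (by omega : b - a ≤ N)
      nlinarith
    have e5 : r ^ a * r ^ N ≤ r ^ b := by
      rw [← pow_add]
      exact pow_le_pow_of_le_one hr0.le hr1.le (by omega)
    have e6 : 0 ≤ (N : ℝ) * (1 - r) := by
      have : (0 : ℝ) ≤ N := by positivity
      nlinarith
    calc r ^ a * (1 - r ^ (b - a)) * r ^ N = (1 - r ^ (b - a)) * (r ^ a * r ^ N) := by ring
      _ ≤ (N * (1 - r)) * r ^ b := by gcongr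
  · have e1 : r ^ a = r ^ b * r ^ (a - b) := by rw [← pow_add]; congr 1; omega
    have e2 : r ^ a - r ^ b = - (r ^ b * (1 - r ^ (a - b))) := by rw [e1]; ring
    have e3 : 0 ≤ 1 - r ^ (a - b) := by
      have := pow_le_one₀ hr0.le hr1.le (n := a - b)
      linarith
    rw [e2, abs_neg, abs_of_nonneg (by positivity)]
    have e4 : 1 - r ^ (a - b) ≤ N * (1 - r) := by
      refine (one_sub_pow_le' hr0.le _).trans ?_
      have : ((a - b : ℕ) : ℝ) ≤ N := by exact_mod_cast (by omega : a - b ≤ N)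
      nlinarith
    have e5 : r ^ N ≤ 1 := pow_le_one₀ hr0.le hr1.le
    have e6 : 0 ≤ (N : ℝ) * (1 - r) := by
      have : (0 : ℝ) ≤ N := by positivity
      nlinarith
    calc r ^ b * (1 - r ^ (a - b)) * r ^ N ≤ r ^ b * (1 - r ^ (a - b)) * 1 := by gcongr
      _ ≤ r ^ b * (N * (1 - r)) * 1 := by gcongr
      _ = (N * (1 - r)) * r ^ b := by ring

theorem LL_pos {r : ℝ} (hr0 : 0 < r) (hr1 : r < 1) : 0 < LL r := by
  unfold LL
  rw [neg_pos]
  apply Real.log_neg <;> nlinarith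

theorem log_series {r : ℝ} (hr0 : 0 ≤ r) (hr1 : r < 1) :
    HasSum (fun n : ℕ => r ^ (n + 1) * (r ^ (n + 1) / ((n + 1 : ℕ) : ℝ))) (LL r) := by
  have h := Real.hasSum_pow_div_log_of_abs_lt_one (x := r ^ 2) (by
    rw [abs_of_nonneg (by positivity)]; nlinarith)
  refine hsc (fun n => ?_) h
  push_cast
  rw [← pow_mul, mul_add, mul_one, ← mul_div_assoc, ← pow_add]
  congr 2
  ring

theorem T0_hasSum {r : ℝ} (hr0 : 0 ≤ r) (hr1 : r < 1) :
    HasSum (fun k : ℤ => pc r k * lc r k) (LL r) := by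
  have h1 := log_series hr0 hr1
  have h0 : HasSum (fun n : ℕ => if n = 0 then Real.log (1 - r ^ 2) else 0)
      (Real.log (1 - r ^ 2)) := hasSum_ite_eq 0 _
  have h1' : HasSum (fun n : ℕ => if n = 0 then 0 else r ^ n * (r ^ n / (n : ℝ))) (LL r) := by
    refine (hasSum_nat_add_iff' 1).mp ?_
    simpa using h1
  have h3 := HasSum.of_nat_of_neg_add_one (f := fun k : ℤ => pc r k * lc r k)
    (m := Real.log (1 - r ^ 2) + LL r) (m' := LL r) ?_ ?_
  · have : LL r = Real.log (1 - r ^ 2) + LL r + LL r := by unfold LL; ring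
    rw [this]
    exact h3
  · refine hsc (fun n => ?_) (h0.add h1')
    by_cases hn : n = 0
    · subst hn; simp [pc, lc]
    · have : (n : ℤ) ≠ 0 := by exact_mod_cast hn
      simp [pc, lc, hn]
  · refine hsc (fun n => ?_) h1
    have h4 : (-((n : ℤ) + 1)).natAbs = n + 1 := by omega
    have h5 : (-((n : ℤ) + 1)) ≠ 0 := by omega
    rw [pc, lc, if_neg h5, h4]

theorem T1_hasSum {r : ℝ} (hr0 : 0 ≤ r) (hr1 : r < 1) :
    HasSum (fun k : ℤ => pc r k * |lc r k|) (3 * LL r) := by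
  have h1 := log_series hr0 hr1
  have h0 : HasSum (fun n : ℕ => if n = 0 then LL r else 0) (LL r) := hasSum_ite_eq 0 _
  have h1' : HasSum (fun n : ℕ => if n = 0 then 0 else r ^ n * (r ^ n / (n : ℝ))) (LL r) := by
    refine (hasSum_nat_add_iff' 1).mp ?_
    simpa using h1
  have h3 := HasSum.of_nat_of_neg_add_one (f := fun k : ℤ => pc r k * |lc r k|)
    (m := LL r + LL r) (m' := LL r) ?_ ?_
  · have : 3 * LL r = LL r + LL r + LL r := by ring
    rw [this]
    exact h3
  · refine hsc (fun n => ?_) (h0.add h1')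
    by_cases hn : n = 0
    · subst hn
      have : Real.log (1 - r ^ 2) ≤ 0 := Real.log_nonpos (by nlinarith) (by nlinarith)
      simp [pc, lc, LL, abs_of_nonpos this]
    · have : (n : ℤ) ≠ 0 := by exact_mod_cast hn
      have h5 : 0 ≤ r ^ n / (n : ℝ) := by positivity
      simp [pc, lc, hn, h5]
  · refine hsc (fun n => ?_) h1
    have h4 : (-((n : ℤ) + 1)).natAbs = n + 1 := by omega
    have h5 : (-((n : ℤ) + 1)) ≠ 0 := by omega
    rw [pc, lc, if_neg h5, h4, abs_of_nonneg (by positivity)]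

/-- Fourier coefficients of the biharmonic kernel -/
noncomputable def cc (r : ℝ) (n : ℤ) : ℝ := ∑' k : ℤ, pc r (n - k) * lc r k

theorem cc_summable {r : ℝ} (hr0 : 0 < r) (hr1 : r < 1) (n : ℤ) :
    Summable (fun k : ℤ => pc r (n - k) * lc r k) := by
  have h1 := (T1_hasSum hr0.le hr1).summable.mul_left ((r ^ n.natAbs)⁻¹)
  refine Summable.of_norm_bounded h1 (fun k => ?_)
  rw [norm_mul, Real.norm_of_nonneg (pc_nonneg hr0.le _), Real.norm_eq_abs, ← mul_assoc]
  gcongr
  unfold pc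
  rw [inv_mul_eq_div, le_div_iff₀ (by positivity), ← pow_add]
  exact pow_le_pow_of_le_one hr0.le hr1.le (by omega)

theorem cc_bound {r : ℝ} (hr0 : 0 < r) (hr1 : r < 1) (n : ℤ) :
    |cc r n - LL r| ≤ n.natAbs * (1 - r) / r ^ n.natAbs * (3 * LL r) := by
  have h0 := T0_hasSum hr0.le hr1
  have h1 := T1_hasSum hr0.le hr1
  have h2 := (cc_summable hr0 hr1 n).hasSum
  have h3 := (h2.sub h0)
  have h4 := h1.mul_left (n.natAbs * (1 - r) / r ^ n.natAbs)
  rw [← h4.tsum_eq]
  have h5 : cc r n - LL r = ∑' k : ℤ, (pc r (n - k) * lc r k - pc r k * lc r k) := h3.tsum_eq.symm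
  rw [h5, ← Real.norm_eq_abs]
  refine tsum_of_norm_bounded h4.summable.hasSum (fun k => ?_)
  rw [← sub_mul, norm_mul, Real.norm_eq_abs, Real.norm_eq_abs, ← mul_assoc]
  gcongr
  have h6 := pow_diff hr0 hr1 (a := (n - k).natAbs) (b := k.natAbs) (N := n.natAbs)
    (by omega) (by omega)
  unfold pc
  calc _ ≤ _ := h6
    _ = _ := by ring

theorem LL_tendsto : Tendsto LL (𝓝[<] 1) atTop := by
  unfold LL
  rw [tendsto_neg_atTop_iff]
  refine Real.tendsto_log_nhdsGT_zero.comp ?_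
  refine tendsto_nhdsWithin_of_tendsto_nhds_of_eventually_within _ ?_ ?_
  · have : Tendsto (fun r : ℝ => 1 - r ^ 2) (𝓝 1) (𝓝 (1 - 1 ^ 2)) :=
      Continuous.tendsto (by fun_prop) 1
    simp only [one_pow, sub_self] at this
    exact this.mono_left nhdsWithin_le_nhds
  · have h1 : ∀ᶠ r : ℝ in 𝓝[<] 1, 0 < r := by
      refine Filter.Eventually.filter_mono nhdsWithin_le_nhds ?_
      exact lt_mem_nhds zero_lt_one
    filter_upwards [self_mem_nhdsWithin, h1] with r hr hr0
    have hr' : r < 1 := hr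
    change 0 < 1 - r ^ 2
    nlinarith

theorem cc_tendsto (n : ℤ) : Tendsto (fun r => cc r n / LL r) (𝓝[<] 1) (𝓝 1) := by
  rw [tendsto_iff_norm_sub_tendsto_zero]
  have hb : Tendsto (fun r : ℝ => n.natAbs * (1 - r) / r ^ n.natAbs * 3) (𝓝[<] 1) (𝓝 0) := by
    have h : ContinuousAt (fun r : ℝ => n.natAbs * (1 - r) / r ^ n.natAbs * 3) 1 := by
      refine ContinuousAt.mul (ContinuousAt.div (by fun_prop) (by fun_prop) (by simp)) (by fun_prop)
    have h2 := h.tendsto
    simp only [sub_self, mul_zero, zero_div, zero_mul] at h2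
    exact h2.mono_left nhdsWithin_le_nhds
  refine squeeze_zero' (Eventually.of_forall (fun _ => norm_nonneg _)) ?_ hb
  have h1 : ∀ᶠ r : ℝ in 𝓝[<] 1, 0 < r := by
    refine Filter.Eventually.filter_mono nhdsWithin_le_nhds ?_
    exact lt_mem_nhds zero_lt_one
  filter_upwards [self_mem_nhdsWithin, h1] with r hr hr0
  have hr' : r < 1 := hr
  have hL := LL_pos hr0 hr'
  have h2 : cc r n / LL r - 1 = (cc r n - LL r) / LL r := by field_simp
  rw [h2, norm_div, Real.norm_eq_abs, Real.norm_of_nonneg hL.le, div_le_iff₀ hL]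
  calc _ ≤ _ := cc_bound hr0 hr' n
    _ = _ := by ring

theorem growth_le : ∀ᶠ r : ℝ in 𝓝[<] 1,
    1 + Real.log ((1 + r) / (1 - r)) ≤ 2 * LL r := by
  have h1 : ∀ᶠ r : ℝ in 𝓝[<] 1, 0 < r := by
    refine Filter.Eventually.filter_mono nhdsWithin_le_nhds ?_
    exact lt_mem_nhds zero_lt_one
  have h2 := LL_tendsto.eventually_ge_atTop (1 + 2 * Real.log 2)
  filter_upwards [self_mem_nhdsWithin, h1, h2] with r hr hr0 hL
  have hr' : r < 1 := hr
  have e1 : Real.log ((1 + r) / (1 - r)) = Real.log (1 + r) - Real.log (1 - r) :=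
    Real.log_div (by linarith) (by linarith)
  have e2 : LL r = - Real.log (1 - r) - Real.log (1 + r) := by
    unfold LL
    have : 1 - r ^ 2 = (1 - r) * (1 + r) := by ring
    rw [this, Real.log_mul (by linarith) (by linarith)]
    ring
  have e3 : Real.log (1 + r) ≤ Real.log 2 := Real.log_le_log (by linarith) (by linarith)
  linarith

end Pool.Agent.Lib.Biharm
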