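import Mathlib

set_option autoImplicit false

namespace Pool.Agent.Lib.Biharm

open MeasureTheory Filter Topology

section

variable {Ω : Type*} [MeasurableSpace Ω] {μ : Measure Ω} [IsProbabilityMeasure μ]

theorem integral_norm_le_norm (w : Lp ℂ 2 μ) : ∫ x, ‖w x‖ ∂μ ≤ ‖w‖ := by
  have hm : MemLp w 2 μ := Lp.memLp w
  have h1 : MemLp w 1 μ := hm.mono_exponent (by norm_num)
  have h2 : ∫ x, ‖w x‖ ∂μ = (eLpNorm w 1 μ).toReal := by
    rw [integral_norm_eq_lintegral_enorm hm.aestronglyMeasurable, eLpNorm_one_eq_lintegral_enorm]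
  rw [h2, Lp.norm_def]
  refine ENNReal.toReal_mono hm.eLpNorm_ne_top ?_
  exact eLpNorm_le_eLpNorm_of_exponent_le (by norm_num) hm.aestronglyMeasurable

theorem integrable_norm' (w : Lp ℂ 2 μ) : Integrable (fun x => ‖w x‖) μ := by
  have hm : MemLp w 2 μ := Lp.memLp w
  have h1 : MemLp w 1 μ := hm.mono_exponent (by norm_num)
  exact (memLp_one_iff_integrable.mp h1).norm

theorem closed_ineq (ψ₀ : Lp ℂ 2 μ) (M : ℝ) :
    IsClosed {v : Lp ℂ 2 μ | ‖inner ℂ ψ₀ v‖ ≤ M * ∫ x, ‖v x‖ ∂μ} := by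
  have hcont : Continuous (fun v : Lp ℂ 2 μ => ∫ x, ‖v x‖ ∂μ) := by
    refine LipschitzWith.continuous (K := 1) ?_
    refine LipschitzWith.of_dist_le_mul ?_
    intro v w
    rw [NNReal.coe_one, one_mul, Real.dist_eq, dist_eq_norm]
    rw [← integral_sub (integrable_norm' v) (integrable_norm' w)]
    calc |∫ x, (‖v x‖ - ‖w x‖) ∂μ| ≤ ∫ x, |‖v x‖ - ‖w x‖| ∂μ := abs_integral_le_integral_abs
      _ ≤ ∫ x, ‖(v - w) x‖ ∂μ := by
        refine integral_mono_ae ((integrable_norm' v).sub (integrable_norm' w)).abs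
          (integrable_norm' (v - w)) ?_
        filter_upwards [Lp.coeFn_sub v w] with x hx
        rw [hx]
        exact abs_norm_sub_norm_le _ _
      _ ≤ ‖v - w‖ := integral_norm_le_norm _
  exact isClosed_le (by fun_prop) (by fun_prop)

theorem ess_bound (ψ₀ : Lp ℂ 2 μ) (M : ℝ)
    (h : ∀ v : Lp ℂ 2 μ, ‖inner ℂ ψ₀ v‖ ≤ M * ∫ x, ‖v x‖ ∂μ) :
    ∀ᵐ x ∂μ, ‖ψ₀ x‖ ≤ M := by
  have hmeas : StronglyMeasurable (ψ₀ : Ω → ℂ) := Lp.stronglyMeasurable ψ₀
  let S : Set Ω := {x | M < ‖ψ₀ x‖}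
  have hS : MeasurableSet S := measurableSet_lt measurable_const hmeas.measurable.norm
  let u : Ω → ℂ := fun x => ψ₀ x / (‖ψ₀ x‖ : ℂ)
  have hu : Measurable u := hmeas.measurable.div
    (Complex.measurable_ofReal.comp hmeas.measurable.norm)
  let v : Ω → ℂ := S.indicator u
  have hv : Measurable v := hu.indicator hS
  have hub : ∀ x, ‖u x‖ ≤ 1 := by
    intro x
    simp only [u, norm_div, Complex.norm_real, norm_norm]
    exact div_self_le_one _
  have hvb : ∀ x, ‖v x‖ ≤ 1 := by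
    intro x
    by_cases hx : x ∈ S
    · simp only [v, Set.indicator_of_mem hx]; exact hub x
    · simp only [v, Set.indicator_of_notMem hx]; simp
  have hvm : MemLp v 2 μ := MemLp.of_bound hv.aestronglyMeasurable 1 (Eventually.of_forall hvb)
  let V : Lp ℂ 2 μ := hvm.toLp v
  have hV : (V : Ω → ℂ) =ᵐ[μ] v := hvm.coeFn_toLp
  have h1 := h V
  have hint : Integrable (fun x => ‖ψ₀ x‖) μ := integrable_norm' ψ₀
  have h2 : inner ℂ ψ₀ V = ((∫ x in S, ‖ψ₀ x‖ ∂μ : ℝ) : ℂ) := by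
    rw [L2.inner_def, ← integral_indicator hS, ← integral_complex_ofReal]
    refine integral_congr_ae ?_
    filter_upwards [hV] with x hx
    rw [hx]
    by_cases hxS : x ∈ S
    · simp only [v, Set.indicator_of_mem hxS, u, RCLike.inner_apply]
      by_cases h0 : ψ₀ x = 0
      · simp [h0]
      · have h3 : (‖ψ₀ x‖ : ℂ) ≠ 0 := by exact_mod_cast norm_ne_zero_iff.mpr h0
        rw [div_mul_eq_mul_div, RCLike.mul_conj, div_eq_iff h3]
        simp [pow_two]
    · simp only [v, Set.indicator_of_notMem hxS]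
      simp
  have h3 : ∫ x, ‖V x‖ ∂μ ≤ ∫ x, S.indicator (fun _ => (1 : ℝ)) x ∂μ := by
    refine integral_mono_ae (integrable_norm' _) ((integrable_const (1 : ℝ)).indicator hS) ?_
    filter_upwards [hV] with x hx
    rw [hx]
    by_cases hxS : x ∈ S
    · simp only [Set.indicator_of_mem hxS]; exact hvb x
    · simp only [v, Set.indicator_of_notMem hxS]; simp
  have hM0 : S.Nonempty ∨ S = ∅ := (Set.eq_empty_or_nonempty S).symm
  by_cases hM : 0 ≤ M
  · have h4 : ∫ x in S, ‖ψ₀ x‖ ∂μ ≤ ∫ x in S, M ∂μ := by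
      rw [h2, Complex.norm_real] at h1
      have h5 : ‖∫ x in S, ‖ψ₀ x‖ ∂μ‖ = ∫ x in S, ‖ψ₀ x‖ ∂μ :=
        Real.norm_of_nonneg (integral_nonneg (fun x => norm_nonneg _))
      rw [h5] at h1
      refine h1.trans ((mul_le_mul_of_nonneg_left h3 hM).trans ?_)
      rw [integral_indicator hS, ← integral_const_mul]
      simp
    have h5 : ∫ x in S, (‖ψ₀ x‖ - M) ∂μ ≤ 0 := by
      rw [integral_sub hint.integrableOn (integrable_const M).integrableOn]
      linarith
    have h6 : 0 ≤ᵐ[μ.restrict S] fun x => ‖ψ₀ x‖ - M := by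
      filter_upwards [ae_restrict_mem hS] with x hx
      have : M < ‖ψ₀ x‖ := hx
      simp only [Pi.zero_apply]
      linarith
    have h7 : ∫ x in S, (‖ψ₀ x‖ - M) ∂μ = 0 := le_antisymm h5 (integral_nonneg_of_ae h6)
    have h8 := (integral_eq_zero_iff_of_nonneg_ae h6
      (hint.integrableOn.sub (integrable_const M).integrableOn)).mp h7
    have h9 : ∀ᵐ x ∂μ, x ∈ S → ‖ψ₀ x‖ - M = 0 := by
      have := (ae_restrict_iff' hS).mp h8
      filter_upwards [this] with x hx hxS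
      exact hx hxS
    filter_upwards [h9] with x hx
    by_contra hcon
    push Not at hcon
    have h10 := hx hcon
    linarith
  · exfalso
    push Not at hM
    have hone : MemLp (fun _ : Ω => (1 : ℂ)) 2 μ := memLp_const 1
    let W : Lp ℂ 2 μ := hone.toLp (fun _ : Ω => (1 : ℂ))
    have hW : (W : Ω → ℂ) =ᵐ[μ] (fun _ : Ω => (1 : ℂ)) := hone.coeFn_toLp
    have h11 := h W
    have h12 : ∫ x, ‖W x‖ ∂μ = 1 := by
      have : ∫ x, ‖W x‖ ∂μ = ∫ x, (1 : ℝ) ∂μ := by
        refine integral_congr_ae ?_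
        filter_upwards [hW] with x hx
        rw [hx]; simp
      rw [this]; simp
    rw [h12] at h11
    have := norm_nonneg (inner ℂ ψ₀ W)
    linarith

end

end Pool.Agent.Lib.Biharm
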