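import Mathlib

set_option autoImplicit false

namespace Pool.Agent.Lib.Biharm

open Complex Set Metric Filter Topology

theorem local_ext {h : ℝ → ℂ} {x : ℝ} (hx : AnalyticAt ℝ h x) :
    ∃ r > 0, ∃ H : ℂ → ℂ, DifferentiableOn ℂ H (ball (x : ℂ) r) ∧
      ∀ t : ℝ, (t : ℂ) ∈ ball (x : ℂ) r → H t = h t := by
  obtain ⟨p, r, hp⟩ := hx
  obtain ⟨r', hr'0, hr'⟩ := ENNReal.lt_iff_exists_nnreal_btwn.mp hp.r_pos
  have hr'pos : 0 < r' := by exact_mod_cast hr'0
  have hsum : Summable (fun n => ‖p n‖ * (r' : ℝ) ^ n) :=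
    p.summable_norm_mul_pow (hr'.trans_le hp.r_le)
  refine ⟨r', by exact_mod_cast hr'pos, fun z => ∑' k, (z - x) ^ k * p.coeff k, ?_, ?_⟩
  · refine differentiableOn_tsum_of_summable_norm hsum ?_ isOpen_ball ?_
    · intro k
      fun_prop
    · intro k w hw
      rw [norm_mul, norm_pow, mul_comm, FormalMultilinearSeries.norm_apply_eq_norm_coef]
      gcongr
      rw [mem_ball, dist_eq_norm] at hw
      exact hw.le
  · intro t ht
    have hmem : (t - x : ℝ) ∈ Metric.eball (0 : ℝ) r := by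
      rw [Metric.mem_eball, edist_zero_right]
      refine lt_of_le_of_lt ?_ hr'
      rw [mem_ball, dist_eq_norm, ← ofReal_sub, Complex.norm_real] at ht
      have h1 : ‖t - x‖₊ ≤ r' := by
        have : (‖t - x‖₊ : ℝ) ≤ r' := by
          rw [coe_nnnorm]; exact ht.le
        exact_mod_cast this
      rw [enorm_eq_nnnorm]
      exact_mod_cast h1
    have h2 := hp.hasSum hmem
    have h3 : x + (t - x) = t := by ring
    rw [h3] at h2
    have h4 : (fun n => (p n) fun _ => t - x) = fun n => ((t : ℂ) - x) ^ n * p.coeff n := by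
      ext n
      rw [FormalMultilinearSeries.apply_eq_pow_smul_coeff]
      simp
    rw [h4] at h2
    exact h2.tsum_eq

theorem ext_unique {h : ℝ → ℂ} {δ : ℝ} {y₁ y₂ : ℝ} {H₁ H₂ : ℂ → ℂ}
    (h1 : DifferentiableOn ℂ H₁ (ball (y₁ : ℂ) δ)) (h1' : ∀ t : ℝ, (t : ℂ) ∈ ball (y₁ : ℂ) δ →
      H₁ t = h t)
    (h2 : DifferentiableOn ℂ H₂ (ball (y₂ : ℂ) δ)) (h2' : ∀ t : ℝ, (t : ℂ) ∈ ball (y₂ : ℂ) δ →
      H₂ t = h t) {z : ℂ} (hz1 : z ∈ ball (y₁ : ℂ) δ) (hz2 : z ∈ ball (y₂ : ℂ) δ) :
    H₁ z = H₂ z := by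
  set U := ball (y₁ : ℂ) δ ∩ ball (y₂ : ℂ) δ with hU
  have hUo : IsOpen U := isOpen_ball.inter isOpen_ball
  have hUc : IsPreconnected U := ((convex_ball _ _).inter (convex_ball _ _)).isPreconnected
  let m : ℝ := (y₁ + y₂) / 2
  have hdist : dist (y₁ : ℂ) (y₂ : ℂ) < 2 * δ := by
    calc dist (y₁ : ℂ) (y₂ : ℂ) ≤ dist (y₁ : ℂ) z + dist z (y₂ : ℂ) := dist_triangle _ _ _
      _ < δ + δ := by
        have e1 : dist (y₁ : ℂ) z < δ := by rw [dist_comm]; exact hz1
        have e2 : dist z (y₂ : ℂ) < δ := hz2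
        exact add_lt_add e1 e2
      _ = 2 * δ := by ring
  have hdist' : |y₁ - y₂| < 2 * δ := by
    rw [dist_eq_norm, ← ofReal_sub, Complex.norm_real] at hdist
    exact hdist
  have hm : (m : ℂ) ∈ U := by
    constructor
    · rw [mem_ball, dist_eq_norm, ← ofReal_sub, Complex.norm_real, Real.norm_eq_abs]
      have : m - y₁ = - ((y₁ - y₂) / 2) := by simp only [m]; ring
      rw [this, abs_neg, abs_div, abs_two]
      linarith
    · rw [mem_ball, dist_eq_norm, ← ofReal_sub, Complex.norm_real, Real.norm_eq_abs]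
      have : m - y₂ = ((y₁ - y₂) / 2) := by simp only [m]; ring
      rw [this, abs_div, abs_two]
      linarith
  have ha1 : AnalyticOnNhd ℂ H₁ U := (h1.mono inter_subset_left).analyticOnNhd hUo
  have ha2 : AnalyticOnNhd ℂ H₂ U := (h2.mono inter_subset_right).analyticOnNhd hUo
  refine ha1.eqOn_of_preconnected_of_frequently_eq ha2 hUc hm ?_ ⟨hz1, hz2⟩
  have htend : Tendsto (fun t : ℝ => (t : ℂ)) (𝓝[≠] m) (𝓝[≠] (m : ℂ)) := by
    refine tendsto_nhdsWithin_of_tendsto_nhds_of_eventually_within _ ?_ ?_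
    · exact (Complex.continuous_ofReal.tendsto m).mono_left nhdsWithin_le_nhds
    · filter_upwards [self_mem_nhdsWithin] with t ht
      simpa using ht
  refine htend.frequently ?_
  refine Eventually.frequently ?_
  have : ∀ᶠ t : ℝ in 𝓝 m, (t : ℂ) ∈ U :=
    Complex.continuous_ofReal.continuousAt.eventually (hUo.mem_nhds hm)
  filter_upwards [this.filter_mono nhdsWithin_le_nhds] with t ht
  rw [h1' t ht.1, h2' t ht.2]

theorem unif_ext {h : ℝ → ℂ} (hh : AnalyticOnNhd ℝ h univ)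
    (hper : Function.Periodic h (2 * Real.pi)) :
    ∃ δ > 0, ∀ y : ℝ, ∃ H : ℂ → ℂ, DifferentiableOn ℂ H (ball (y : ℂ) δ) ∧
      ∀ t : ℝ, (t : ℂ) ∈ ball (y : ℂ) δ → H t = h t := by
  choose r hr H hH hH' using fun x : ℝ => local_ext (hh x (mem_univ x))
  have hcomp : IsCompact ((fun t : ℝ => (t : ℂ)) '' (Icc 0 (2 * Real.pi))) :=
    isCompact_Icc.image Complex.continuous_ofReal
  obtain ⟨δ, hδ, hδ'⟩ := lebesgue_number_lemma_of_metric (c := fun x : ℝ => ball (x : ℂ) (r x))
    hcomp (fun _ => isOpen_ball) (by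
      rintro _ ⟨t, -, rfl⟩
      exact mem_iUnion.mpr ⟨t, mem_ball_self (hr t)⟩)
  refine ⟨δ, hδ, fun y => ?_⟩
  obtain ⟨n, hn, -⟩ := existsUnique_add_zsmul_mem_Ico Real.two_pi_pos y 0
  have hn' : y + n * (2 * Real.pi) ∈ Icc 0 (2 * Real.pi) := by
    rw [zsmul_eq_mul, zero_add] at hn
    exact ⟨hn.1, hn.2.le⟩
  obtain ⟨x, hx⟩ := hδ' _ (mem_image_of_mem (fun t : ℝ => (t : ℂ)) hn')
  have hmaps : ∀ z ∈ ball (y : ℂ) δ, z + n * (2 * Real.pi) ∈ ball (x : ℂ) (r x) := by
    intro z hz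
    apply hx
    rw [mem_ball, dist_eq_norm] at hz ⊢
    push_cast
    have : z + n * (2 * Real.pi) - (y + n * (2 * Real.pi)) = z - y := by ring
    rw [this]
    exact hz
  refine ⟨fun z => H x (z + n * (2 * Real.pi)), ?_, ?_⟩
  · refine (hH x).comp (by fun_prop) hmaps
  · intro t ht
    have h1 : ((t : ℂ) + n * (2 * Real.pi)) = ((t + n * (2 * Real.pi) : ℝ) : ℂ) := by push_cast; ring
    have h2 := hmaps t ht
    rw [h1] at h2
    change H x ((t : ℂ) + n * (2 * Real.pi)) = h t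
    rw [h1, hH' x _ h2]
    exact hper.int_mul n t

theorem strip_ext {h : ℝ → ℂ} (hh : AnalyticOnNhd ℝ h univ)
    (hper : Function.Periodic h (2 * Real.pi)) :
    ∃ δ > 0, ∃ H : ℂ → ℂ, DifferentiableOn ℂ H {z | |z.im| < δ} ∧ (∀ t : ℝ, H t = h t) ∧
      ∀ z : ℂ, |z.im| < δ → H (z + 2 * Real.pi) = H z := by
  obtain ⟨δ, hδ, hex⟩ := unif_ext hh hper
  choose H hH hH' using hex
  have hmem : ∀ z : ℂ, |z.im| < δ → z ∈ ball (z.re : ℂ) δ := by
    intro z hz
    rw [mem_ball, dist_eq_norm]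
    have : z - z.re = z.im * I := by
      apply Complex.ext <;> simp
    rw [this, norm_mul, Complex.norm_I, mul_one, Complex.norm_real]
    exact hz
  refine ⟨δ, hδ, fun z => H z.re z, ?_, ?_, ?_⟩
  · intro z₀ hz₀
    have hz₀' := hmem z₀ hz₀
    apply DifferentiableAt.differentiableWithinAt
    have h1 : DifferentiableAt ℂ (H z₀.re) z₀ :=
      (hH z₀.re).differentiableAt (isOpen_ball.mem_nhds hz₀')
    refine h1.congr_of_eventuallyEq ?_
    have hopen : IsOpen {z : ℂ | |z.im| < δ} :=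
      isOpen_lt (continuous_abs.comp Complex.continuous_im) continuous_const
    filter_upwards [isOpen_ball.mem_nhds hz₀', hopen.mem_nhds hz₀] with z hz1 hz2
    exact ext_unique (hH _) (hH' _) (hH _) (hH' _) (hmem z hz2) hz1
  · intro t
    refine hH' t t ?_
    exact mem_ball_self hδ
  · intro z hz
    -- compare with the translate
    have h1 : DifferentiableOn ℂ (fun w => H (z + 2 * Real.pi).re (w + 2 * Real.pi))
        (ball (z.re : ℂ) δ) := by
      refine (hH _).comp (by fun_prop) ?_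
      intro w hw
      rw [mem_ball, dist_eq_norm] at hw ⊢
      have : w + 2 * Real.pi - ((z + 2 * Real.pi).re : ℂ) = w - z.re := by
        simp
      rw [this]
      exact hw
    have h2 : ∀ t : ℝ, (t : ℂ) ∈ ball (z.re : ℂ) δ →
        (fun w => H (z + 2 * Real.pi).re (w + 2 * Real.pi)) t = h t := by
      intro t ht
      have h3 : ((t : ℂ) + 2 * Real.pi) = ((t + 2 * Real.pi : ℝ) : ℂ) := by push_cast; ring
      change H (z + 2 * Real.pi).re ((t : ℂ) + 2 * Real.pi) = h t
      rw [h3, hH' _ _ ?_]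
      · exact hper t
      · rw [mem_ball, dist_eq_norm] at ht ⊢
        have : ((t + 2 * Real.pi : ℝ) : ℂ) - ((z + 2 * Real.pi).re : ℂ) = t - z.re := by
          simp
        rw [this]
        exact ht
    exact ext_unique h1 h2 (hH _) (hH' _) (hmem z hz) (hmem z hz)

theorem fourier_decay {h : ℝ → ℂ} {δ : ℝ} {H : ℂ → ℂ}
    (hH : DifferentiableOn ℂ H {z | |z.im| < δ}) (hHr : ∀ t : ℝ, H t = h t)
    (hHp : ∀ z : ℂ, |z.im| < δ → H (z + 2 * Real.pi) = H z) {s : ℝ} (hs0 : 0 < s) (hs : s < δ) :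
    ∃ M : ℝ, ∀ n : ℤ, ‖∫ x in (0 : ℝ)..(2 * Real.pi), h x * cexp (-(I * n * x))‖ ≤
      M * Real.exp (-(s * |(n : ℝ)|)) := by
  have hshift : ∀ (n : ℤ) (y : ℝ), |y| < δ →
      ∫ x in (0 : ℝ)..(2 * Real.pi), h x * cexp (-(I * n * x)) =
      ∫ x in (0 : ℝ)..(2 * Real.pi), H (x + y * I) * cexp (-(I * n * (x + y * I))) := by
    intro n y hy
    let F : ℂ → ℂ := fun z => H z * cexp (-(I * n * z))
    have hrect : (uIcc (0 : ℂ).re ((2 * Real.pi : ℝ) + y * I : ℂ).re ×ℂ
        uIcc (0 : ℂ).im ((2 * Real.pi : ℝ) + y * I : ℂ).im) ⊆ {z : ℂ | |z.im| < δ} := by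
      intro z hz
      rw [Complex.mem_reProdIm] at hz
      have h1 := hz.2
      simp only [Complex.zero_im, Complex.add_im, Complex.ofReal_im, Complex.mul_im,
        Complex.ofReal_re, Complex.I_im, Complex.I_re, mul_one, mul_zero, add_zero, zero_add] at h1
      have h2 := Set.abs_sub_left_of_mem_uIcc h1
      simp only [sub_zero] at h2
      exact h2.trans_lt hy
    have hFd : DifferentiableOn ℂ F (uIcc (0 : ℂ).re ((2 * Real.pi : ℝ) + y * I : ℂ).re ×ℂ
        uIcc (0 : ℂ).im ((2 * Real.pi : ℝ) + y * I : ℂ).im) := by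
      refine DifferentiableOn.mul (hH.mono hrect) ?_
      fun_prop
    have hint := Complex.integral_boundary_rect_eq_zero_of_differentiableOn F 0
      ((2 * Real.pi : ℝ) + y * I) hFd
    have hper : ∀ t : ℝ, |t| < δ → F ((2 * Real.pi : ℝ) + t * I) = F (t * I) := by
      intro t ht
      have h1 : H (((2 * Real.pi : ℝ) : ℂ) + t * I) = H (t * I) := by
        have h2 := hHp (t * I) (by simpa using ht)
        rw [← h2]
        congr 1
        push_cast
        ring
      have h3 : cexp (-(I * n * (((2 * Real.pi : ℝ) : ℂ) + t * I))) = cexp (-(I * n * (t * I))) := by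
        have h4 : -(I * n * (((2 * Real.pi : ℝ) : ℂ) + t * I)) =
            -(I * n * (t * I)) - n * (2 * Real.pi * I) := by
          push_cast
          ring
        rw [h4]
        exact (Complex.exp_eq_exp_iff_exists_int.mpr ⟨-n, by push_cast; ring⟩)
      simp only [F]
      rw [h1, h3]
    simp only [Complex.zero_im, Complex.zero_re, Complex.add_im, Complex.ofReal_im, Complex.mul_im,
      Complex.ofReal_re, Complex.I_im, Complex.I_re, mul_one, mul_zero, add_zero, zero_add,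
      Complex.add_re, Complex.mul_re, sub_zero, Complex.ofReal_zero, zero_mul] at hint
    have hv : (∫ t in (0 : ℝ)..y, F (((2 * Real.pi : ℝ) : ℂ) + t * I)) =
        ∫ t in (0 : ℝ)..y, F (t * I) := by
      refine intervalIntegral.integral_congr ?_
      intro t ht
      apply hper
      have h2 := Set.abs_sub_left_of_mem_uIcc ht
      simp only [sub_zero] at h2
      exact h2.trans_lt hy
    rw [hv] at hint
    have h5 : (∫ x in (0 : ℝ)..(2 * Real.pi), F x) -
        ∫ x in (0 : ℝ)..(2 * Real.pi), F (x + y * I) = 0 := by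
      have := hint
      simp only [add_sub_cancel_right] at this
      exact this
    rw [sub_eq_zero] at h5
    rw [← h5]
    refine intervalIntegral.integral_congr ?_
    intro x _
    simp only [F]
    rw [hHr]
  -- bound of H on two horizontal segments
  have hcont : ∀ y : ℝ, |y| < δ → ContinuousOn (fun x : ℝ => H (x + y * I)) (Icc 0 (2 * Real.pi)) := by
    intro y hy
    refine hH.continuousOn.comp (by fun_prop) ?_
    intro x _
    simpa using hy
  obtain ⟨M1, hM1⟩ := isCompact_Icc.exists_bound_of_continuousOn (hcont s (by rwa [abs_of_pos hs0]))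
  obtain ⟨M2, hM2⟩ := isCompact_Icc.exists_bound_of_continuousOn
    (hcont (-s) (by rwa [abs_neg, abs_of_pos hs0]))
  refine ⟨max M1 M2 * (2 * Real.pi), fun n => ?_⟩
  have hgen : ∀ y M : ℝ, |y| < δ → (∀ x ∈ Icc (0 : ℝ) (2 * Real.pi), ‖H (x + y * I)‖ ≤ M) →
      ‖∫ x in (0 : ℝ)..(2 * Real.pi), h x * cexp (-(I * n * x))‖ ≤
        M * Real.exp (n * y) * (2 * Real.pi) := by
    intro y M hy hM
    rw [hshift n y hy]
    have h1 := intervalIntegral.norm_integral_le_of_norm_le_const (a := 0) (b := 2 * Real.pi)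
      (f := fun x : ℝ => H (x + y * I) * cexp (-(I * n * (x + y * I)))) (C := M * Real.exp (n * y)) ?_
    · rwa [sub_zero, abs_of_pos Real.two_pi_pos] at h1
    · intro x hx
      rw [uIoc_of_le Real.two_pi_pos.le] at hx
      rw [norm_mul, Complex.norm_exp]
      have h2 : (-(I * n * (x + y * I))).re = n * y := by
        simp
      rw [h2]
      gcongr
      exact hM x ⟨hx.1.le, hx.2⟩
  have hM0 : 0 ≤ max M1 M2 := by
    refine le_max_of_le_left ?_
    exact (norm_nonneg _).trans (hM1 0 ⟨le_rfl, Real.two_pi_pos.le⟩)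
  rcases le_or_gt 0 n with hn | hn
  · have h1 := hgen (-s) M2 (by rwa [abs_neg, abs_of_pos hs0]) (by
      intro x hx
      have := hM2 x hx
      exact this)
    refine h1.trans ?_
    have h2 : (n : ℝ) * (-s) = -(s * |(n : ℝ)|) := by
      rw [abs_of_nonneg (by exact_mod_cast hn)]
      ring
    rw [h2]
    have h3 : M2 ≤ max M1 M2 := le_max_right _ _
    calc M2 * Real.exp (-(s * |(n : ℝ)|)) * (2 * Real.pi)
        ≤ max M1 M2 * Real.exp (-(s * |(n : ℝ)|)) * (2 * Real.pi) := by gcongr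
      _ = _ := by ring
  · have h1 := hgen s M1 (by rwa [abs_of_pos hs0]) (by
      intro x hx
      have := hM1 x hx
      exact this)
    refine h1.trans ?_
    have h2 : (n : ℝ) * s = -(s * |(n : ℝ)|) := by
      rw [abs_of_neg (by exact_mod_cast hn)]
      ring
    rw [h2]
    have h3 : M1 ≤ max M1 M2 := le_max_left _ _
    calc M1 * Real.exp (-(s * |(n : ℝ)|)) * (2 * Real.pi)
        ≤ max M1 M2 * Real.exp (-(s * |(n : ℝ)|)) * (2 * Real.pi) := by gcongr
      _ = _ := by ring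

end Pool.Agent.Lib.Biharm
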