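import Mathlib
import Pool.Agent.Lib.MP_a0f451_an.Coef
import Pool.Agent.Lib.MP_a0f451_an.L2
import Pool.Agent.Lib.MP_a0f451_an.RealAnalytic

set_option autoImplicit false

namespace Pool.Agent.Lib.Biharm

open MeasureTheory Filter Topology AddCircle

instance factTwoPi : Fact (0 < 2 * Real.pi) := ⟨Real.two_pi_pos⟩

/-- the additive circle of length 2 pi -/
abbrev TT := AddCircle (2 * Real.pi)

/-- normalised Haar measure -/
noncomputable abbrev mu : Measure TT := haarAddCircle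

theorem fourier_eq (n : ℤ) (x : TT) : fourier n x = ((toCircle x : Circle) : ℂ) ^ n := by
  rw [fourier_apply, toCircle_zsmul, Circle.coe_zpow]

theorem integral_fourier (n : ℤ) : ∫ x : TT, fourier n x ∂mu = if n = 0 then 1 else 0 := by
  have h := congrFun (fourierCoeff_fourier (T := 2 * Real.pi) n) 0
  rw [fourierCoeff] at h
  simp only [neg_zero, fourier_zero, one_smul] at h
  rw [h, Pi.single_apply]
  simp only [eq_comm]

theorem nu_bound (ν : AnalyticFunctional) {ρ : ℝ} (hρ0 : 0 < ρ) (hρ1 : ρ < 1) :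
    ∃ C : ℝ, ∀ n : ℤ, ‖ν.toFun (char n)‖ ≤ C * (ρ⁻¹) ^ n.natAbs := by
  obtain ⟨C, hC⟩ := ν.bound ρ hρ0 hρ1
  refine ⟨C, fun n => hC (char n) (fun w => w ^ n) _ ?_ ?_ ?_⟩
  · intro w hw
    exact (differentiableAt_id.zpow (Or.inl (annulus_ne_zero hρ0 hw))).differentiableWithinAt
  · intro w hw
    exact annulus_zpow hρ0 hw n
  · intro ξ
    rfl

/-- the dilated transform on the additive circle -/
noncomputable def FF (ν : AnalyticFunctional) (r : ℝ) (x : TT) : ℂ :=
  ∑' p : ℤ × ℤ, (pc r p.1 : ℂ) * (lc r p.2 : ℂ) * ν.toFun (char (p.1 + p.2)) *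
    fourier (-(p.1 + p.2)) x

theorem FF_eq (ν : AnalyticFunctional) {r : ℝ} (hr0 : 0 ≤ r) (hr1 : r < 1) (x : TT)
    (hz : ‖(r : ℂ) * (toCircle x : Circle)‖ < 1) :
    FF ν r x = biharmonicTransform ν ((r : ℂ) * (toCircle x : Circle)) hz := by
  have h := transform_hasSum ν hr0 hr1 (toCircle x) hz
  rw [FF, ← h.tsum_eq]
  refine tsum_congr (fun p => ?_)
  rw [fourier_eq]
  ring

theorem FF_norms (ν : AnalyticFunctional) {r : ℝ} (hr0 : 0 ≤ r) (hr1 : r < 1) :
    Summable (fun p : ℤ × ℤ => ‖(pc r p.1 : ℂ) * (lc r p.2 : ℂ) * ν.toFun (char (p.1 + p.2))‖) := by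
  obtain ⟨ρ, hrρ, hρ1⟩ := exists_between hr1
  have hρ0 : 0 < ρ := hr0.trans_lt hrρ
  obtain ⟨C, hC⟩ := nu_bound ν hρ0 hρ1
  have h := (pair_summable hr0 hρ0 hrρ hρ1).mul_left C
  refine Summable.of_nonneg_of_le (fun p => norm_nonneg _) (fun p => ?_) h
  rw [norm_mul, norm_mul, Complex.norm_real, Complex.norm_real,
    Real.norm_of_nonneg (pc_nonneg hr0 _), Real.norm_eq_abs]
  have h1 : 0 ≤ pc r p.1 * |lc r p.2| := mul_nonneg (pc_nonneg hr0 _) (abs_nonneg _)
  calc pc r p.1 * |lc r p.2| * ‖ν.toFun (char (p.1 + p.2))‖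
      ≤ pc r p.1 * |lc r p.2| * (C * (ρ⁻¹) ^ (p.1 + p.2).natAbs) :=
        mul_le_mul_of_nonneg_left (hC _) h1
    _ = _ := by ring

theorem fourier_norm_pt (n : ℤ) (x : TT) : ‖fourier n x‖ = 1 := by
  rw [fourier_eq, norm_zpow, Circle.norm_coe, one_zpow]

theorem FF_continuous (ν : AnalyticFunctional) {r : ℝ} (hr0 : 0 ≤ r) (hr1 : r < 1) :
    Continuous (FF ν r) := by
  refine continuous_tsum (fun p => ?_) (FF_norms ν hr0 hr1) (fun p x => ?_)
  · exact continuous_const.mul (fourier (-(p.1 + p.2))).continuous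
  · rw [norm_mul _ (fourier _ x), fourier_norm_pt, mul_one]

theorem FF_coeff (ν : AnalyticFunctional) {r : ℝ} (hr0 : 0 < r) (hr1 : r < 1) (n : ℤ) :
    ∫ x : TT, FF ν r x * fourier n x ∂mu = (cc r n : ℂ) * ν.toFun (char n) := by
  let t : ℤ × ℤ → TT → ℂ := fun p x => (pc r p.1 : ℂ) * (lc r p.2 : ℂ) *
    ν.toFun (char (p.1 + p.2)) * fourier (-(p.1 + p.2)) x * fourier n x
  have ht : ∀ p, t p = fun x => (pc r p.1 : ℂ) * (lc r p.2 : ℂ) *
    ν.toFun (char (p.1 + p.2)) * fourier (n - (p.1 + p.2)) x := by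
    intro p
    ext x
    simp only [t]
    rw [mul_assoc, ← fourier_add]
    congr 3
    ring
  have hcont : ∀ p, Continuous (t p) := by
    intro p
    rw [ht]
    exact continuous_const.mul (fourier _).continuous
  have hint : ∀ p, Integrable (t p) mu := by
    intro p
    exact (hcont p).integrable_of_hasCompactSupport (HasCompactSupport.of_compactSpace _)
  have hnorm : ∀ p, ∫ x, ‖t p x‖ ∂mu =
      ‖(pc r p.1 : ℂ) * (lc r p.2 : ℂ) * ν.toFun (char (p.1 + p.2))‖ := by
    intro p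
    have : ∀ x, ‖t p x‖ = ‖(pc r p.1 : ℂ) * (lc r p.2 : ℂ) * ν.toFun (char (p.1 + p.2))‖ := by
      intro x
      rw [ht]
      simp only []
      rw [norm_mul _ (fourier _ x), fourier_norm_pt, mul_one]
    simp only [this]
    simp
  have hs : Summable (fun p => ∫ x, ‖t p x‖ ∂mu) := by
    simp only [hnorm]
    exact FF_norms ν hr0.le hr1
  have h1 := hasSum_integral_of_summable_integral_norm hint hs
  have h2 : ∀ x : TT, ∑' p, t p x = FF ν r x * fourier n x := by
    intro x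
    simp only [t]
    rw [tsum_mul_right, FF]
  simp only [h2] at h1
  have h3 : ∀ p : ℤ × ℤ, ∫ x, t p x ∂mu = if p.1 + p.2 = n then
      (pc r p.1 : ℂ) * (lc r p.2 : ℂ) * ν.toFun (char n) else 0 := by
    intro p
    rw [ht]
    rw [integral_const_mul, integral_fourier]
    by_cases hp : p.1 + p.2 = n
    · rw [if_pos hp, if_pos (by omega), hp, mul_one]
    · rw [if_neg hp, if_neg (by omega), mul_zero]
  simp only [h3] at h1
  have hinj : Function.Injective (fun k : ℤ => ((n - k, k) : ℤ × ℤ)) := by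
    intro k k' hkk'
    exact (Prod.mk.inj hkk').2
  have h4 := (hinj.hasSum_iff (f := fun p : ℤ × ℤ => if p.1 + p.2 = n then
      (pc r p.1 : ℂ) * (lc r p.2 : ℂ) * ν.toFun (char n) else 0) (by
    intro p hp
    rw [if_neg]
    intro hpn
    apply hp
    refine ⟨p.2, ?_⟩
    ext
    · simp only []; omega
    · rfl)).mpr h1
  have h5 : HasSum (fun k : ℤ => (((pc r (n - k) * lc r k : ℝ)) : ℂ) * ν.toFun (char n))
      ((cc r n : ℂ) * ν.toFun (char n)) := by
    refine HasSum.mul_right _ ?_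
    exact Complex.hasSum_ofReal.mpr (cc_summable hr0 hr1 n).hasSum
  refine HasSum.unique (hsc (fun k => ?_) h4) h5
  simp only [Function.comp]
  rw [if_pos (by ring)]
  push_cast
  rfl

theorem trig_ineq (ν : AnalyticFunctional) (C : ℝ)
    (h : ∀ z (hz : ‖z‖ < 1), ‖biharmonicTransform ν z hz‖ ≤
      C * (1 + Real.log ((1 + ‖z‖) / (1 - ‖z‖)))) (s : Finset ℤ) (b : ℤ → ℂ) :
    ‖∑ n ∈ s, b n * ν.toFun (char n)‖ ≤
      (2 * |C|) * ∫ x : TT, ‖∑ n ∈ s, b n * fourier n x‖ ∂mu := by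
  let u : TT → ℂ := fun x => ∑ n ∈ s, b n * fourier n x
  have hu : Continuous u := by
    refine continuous_finsetSum _ (fun n _ => ?_)
    exact continuous_const.mul (fourier n).continuous
  have hui : Integrable u mu :=
    hu.integrable_of_hasCompactSupport (HasCompactSupport.of_compactSpace _)
  have hlim : Tendsto (fun r : ℝ => ‖∑ n ∈ s, b n * ((cc r n / LL r : ℝ) : ℂ) * ν.toFun (char n)‖)
      (𝓝[<] 1) (𝓝 ‖∑ n ∈ s, b n * ν.toFun (char n)‖) := by
    refine Tendsto.norm ?_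
    refine tendsto_finsetSum _ (fun n _ => ?_)
    have h1 : Tendsto (fun r : ℝ => ((cc r n / LL r : ℝ) : ℂ)) (𝓝[<] 1) (𝓝 ((1 : ℝ) : ℂ)) :=
      (Complex.continuous_ofReal.tendsto 1).comp (cc_tendsto n)
    have h2 := (h1.const_mul (b n)).mul_const (ν.toFun (char n))
    simpa using h2
  refine le_of_tendsto hlim ?_
  have hr0' : ∀ᶠ r : ℝ in 𝓝[<] 1, 0 < r :=
    Filter.Eventually.filter_mono nhdsWithin_le_nhds (lt_mem_nhds zero_lt_one)
  filter_upwards [self_mem_nhdsWithin, hr0', growth_le] with r hr hr0 hgr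
  have hr1 : r < 1 := hr
  have hL := LL_pos hr0 hr1
  have hFc := FF_continuous ν hr0.le hr1
  have hFi : ∀ n, Integrable (fun x => b n * (FF ν r x * fourier n x)) mu := by
    intro n
    exact (continuous_const.mul (hFc.mul (fourier n).continuous)).integrable_of_hasCompactSupport
      (HasCompactSupport.of_compactSpace _)
  have h1 : ∫ x, FF ν r x * u x ∂mu = ∑ n ∈ s, b n * ((cc r n : ℂ) * ν.toFun (char n)) := by
    have h2 : ∀ x, FF ν r x * u x = ∑ n ∈ s, b n * (FF ν r x * fourier n x) := by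
      intro x
      simp only [u, Finset.mul_sum]
      refine Finset.sum_congr rfl (fun n _ => ?_)
      ring
    simp only [h2]
    rw [integral_finsetSum _ (fun n _ => hFi n)]
    refine Finset.sum_congr rfl (fun n _ => ?_)
    rw [integral_const_mul, FF_coeff ν hr0 hr1]
  have hz : ∀ x : TT, ‖(r : ℂ) * (toCircle x : Circle)‖ < 1 := by
    intro x
    rw [norm_mul, Circle.norm_coe, mul_one, Complex.norm_real, Real.norm_of_nonneg hr0.le]
    exact hr1
  have hbd : ∀ x, ‖FF ν r x‖ ≤ 2 * |C| * LL r := by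
    intro x
    rw [FF_eq ν hr0.le hr1 x (hz x)]
    refine (h _ (hz x)).trans ?_
    have h3 : ‖(r : ℂ) * (toCircle x : Circle)‖ = r := by
      rw [norm_mul, Circle.norm_coe, mul_one, Complex.norm_real, Real.norm_of_nonneg hr0.le]
    rw [h3]
    have h4 : 0 ≤ 1 + Real.log ((1 + r) / (1 - r)) := by
      have : 0 ≤ Real.log ((1 + r) / (1 - r)) := by
        apply Real.log_nonneg
        rw [le_div_iff₀ (by linarith)]
        linarith
      linarith
    calc C * (1 + Real.log ((1 + r) / (1 - r))) ≤ |C| * (1 + Real.log ((1 + r) / (1 - r))) := by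
          gcongr; exact le_abs_self C
      _ ≤ |C| * (2 * LL r) := by gcongr
      _ = _ := by ring
  have h5 : ‖∫ x, FF ν r x * u x ∂mu‖ ≤ 2 * |C| * LL r * ∫ x, ‖u x‖ ∂mu := by
    rw [← integral_const_mul]
    refine norm_integral_le_of_norm_le (hui.norm.const_mul _) (Eventually.of_forall (fun x => ?_))
    rw [norm_mul]
    exact mul_le_mul_of_nonneg_right (hbd x) (norm_nonneg _)
  have h6 : ∑ n ∈ s, b n * ((cc r n / LL r : ℝ) : ℂ) * ν.toFun (char n) =
      ((LL r : ℂ))⁻¹ * ∫ x, FF ν r x * u x ∂mu := by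
    rw [h1, Finset.mul_sum]
    refine Finset.sum_congr rfl (fun n _ => ?_)
    push_cast
    ring
  rw [h6, norm_mul, norm_inv, Complex.norm_real, Real.norm_of_nonneg hL.le, inv_mul_le_iff₀ hL]
  calc _ ≤ _ := h5
    _ = _ := by simp only [u]; ring

end Pool.Agent.Lib.Biharm
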