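import Mathlib
import Pool.Agent.Lib.MP_a0f451_an.Main

set_option autoImplicit false

namespace Pool.Agent.Lib.Biharm

open MeasureTheory Filter Topology AddCircle

/-- finite combination in L2 -/
theorem sum_coe (s : Finset ℤ) (b : ℤ → ℂ) :
    ((∑ n ∈ s, b n • (fourierLp 2 n : Lp ℂ 2 mu) : Lp ℂ 2 mu) : TT → ℂ) =ᵐ[mu]
      fun x => ∑ n ∈ s, b n * fourier n x := by
  classical
  induction s using Finset.induction_on with
  | empty =>
    simp only [Finset.sum_empty]
    exact Lp.coeFn_zero ℂ 2 mu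
  | insert a s ha ih =>
    rw [Finset.sum_insert ha]
    refine (Lp.coeFn_add _ _).trans ?_
    filter_upwards [ih, Lp.coeFn_smul (b a) (fourierLp 2 a : Lp ℂ 2 mu),
      coeFn_fourierLp (T := 2 * Real.pi) 2 a] with x h1 h2 h3
    rw [Pi.add_apply, h1, h2, Pi.smul_apply, h3, Finset.sum_insert ha, smul_eq_mul]

theorem exists_density (ν : AnalyticFunctional) (M : ℝ)
    (hM : ∀ (s : Finset ℤ) (b : ℤ → ℂ), ‖∑ n ∈ s, b n * ν.toFun (char n)‖ ≤
      M * ∫ x : TT, ‖∑ n ∈ s, b n * fourier n x‖ ∂mu) (hM0 : 0 ≤ M) :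
    ∃ ψ₀ : Lp ℂ 2 mu, (∀ n : ℤ, inner ℂ ψ₀ (fourierLp 2 n) = ν.toFun (char n)) ∧
      ∀ᵐ x ∂mu, ‖ψ₀ x‖ ≤ M := by
  classical
  have hM' : ∀ (s : Finset ℤ) (b : ℤ → ℂ), ‖∑ n ∈ s, b n * ν.toFun (char n)‖ ≤
      M * ∫ x : TT, ‖(∑ n ∈ s, b n • (fourierLp 2 n : Lp ℂ 2 mu) : Lp ℂ 2 mu) x‖ ∂mu := by
    intro s b
    refine (hM s b).trans (le_of_eq ?_)
    congr 1
    refine integral_congr_ae ?_
    filter_upwards [sum_coe s b] with x hx
    rw [hx]
  -- square summability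
  have hsq : ∀ s : Finset ℤ, ∑ n ∈ s, ‖ν.toFun (char n)‖ ^ 2 ≤ M ^ 2 := by
    intro s
    set S : ℝ := ∑ n ∈ s, ‖ν.toFun (char n)‖ ^ 2 with hS
    have hS0 : 0 ≤ S := Finset.sum_nonneg (fun n _ => by positivity)
    let b : ℤ → ℂ := fun n => (starRingEnd ℂ) (ν.toFun (char n))
    have h1 := hM' s b
    have h2 : ∑ n ∈ s, b n * ν.toFun (char n) = ((S : ℝ) : ℂ) := by
      rw [hS, Complex.ofReal_sum]
      refine Finset.sum_congr rfl (fun n _ => ?_)
      simp only [b]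
      rw [mul_comm, Complex.mul_conj, Complex.normSq_eq_norm_sq]
    rw [h2, Complex.norm_real, Real.norm_of_nonneg hS0] at h1
    have h3 : ‖(∑ n ∈ s, b n • (fourierLp 2 n : Lp ℂ 2 mu) : Lp ℂ 2 mu)‖ ^ 2 = S := by
      have h4 := (orthonormal_fourier (T := 2 * Real.pi)).inner_sum b b s
      rw [inner_self_eq_norm_sq_to_K] at h4
      have h5 : ∑ i ∈ s, (starRingEnd ℂ) (b i) * b i = ((S : ℝ) : ℂ) := by
        rw [hS, Complex.ofReal_sum]
        refine Finset.sum_congr rfl (fun n _ => ?_)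
        simp only [b, Complex.conj_conj]
        rw [Complex.mul_conj, Complex.normSq_eq_norm_sq]
      rw [h5] at h4
      apply Complex.ofReal_injective
      rw [← h4]
      simp
    have h6 := integral_norm_le_norm (∑ n ∈ s, b n • (fourierLp 2 n : Lp ℂ 2 mu) : Lp ℂ 2 mu)
    have h7 : S ≤ M * ‖(∑ n ∈ s, b n • (fourierLp 2 n : Lp ℂ 2 mu) : Lp ℂ 2 mu)‖ :=
      h1.trans (mul_le_mul_of_nonneg_left h6 hM0)
    set t := ‖(∑ n ∈ s, b n • (fourierLp 2 n : Lp ℂ 2 mu) : Lp ℂ 2 mu)‖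
    have ht : 0 ≤ t := norm_nonneg _
    have h8 : S ^ 2 ≤ M ^ 2 * S := by
      have := mul_self_le_mul_self hS0 h7
      nlinarith
    rcases hS0.eq_or_lt with h9 | h9
    · rw [← h9]; positivity
    · have : S * S ≤ M ^ 2 * S := by nlinarith
      exact le_of_mul_le_mul_right this h9
  have hmem : Memℓp (fun n : ℤ => (starRingEnd ℂ) (ν.toFun (char n))) 2 := by
    refine memℓp_gen ?_
    simp only [ENNReal.toReal_ofNat, Real.rpow_ofNat]
    refine summable_of_sum_le (c := M ^ 2) (fun n => by positivity) (fun s => ?_)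
    refine le_trans (le_of_eq ?_) (hsq s)
    refine Finset.sum_congr rfl (fun n _ => ?_)
    rw [RCLike.norm_conj]
  let q : lp (fun _ : ℤ => ℂ) 2 := ⟨fun n : ℤ => (starRingEnd ℂ) (ν.toFun (char n)), hmem⟩
  let ψ₀ : Lp ℂ 2 mu := (fourierBasis (T := 2 * Real.pi)).repr.symm q
  have hinner : ∀ n : ℤ, inner ℂ ψ₀ (fourierLp 2 n) = ν.toFun (char n) := by
    intro n
    have h1 : (fourierBasis (T := 2 * Real.pi)).repr ψ₀ n =
        inner ℂ (fourierBasis (T := 2 * Real.pi) n) ψ₀ :=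
      HilbertBasis.repr_apply_apply _ _ _
    have h2 : (fourierBasis (T := 2 * Real.pi)).repr ψ₀ n =
        (starRingEnd ℂ) (ν.toFun (char n)) := by
      simp only [ψ₀, LinearIsometryEquiv.apply_symm_apply]
      rfl
    rw [h1, coe_fourierBasis] at h2
    rw [← inner_conj_symm, h2, Complex.conj_conj]
  refine ⟨ψ₀, hinner, ess_bound ψ₀ M ?_⟩
  have hspan : ∀ v ∈ Submodule.span ℂ (Set.range (fourierLp (T := 2 * Real.pi) 2)),
      v ∈ {v : Lp ℂ 2 mu | ‖inner ℂ ψ₀ v‖ ≤ M * ∫ x, ‖v x‖ ∂mu} := by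
    intro v hv
    obtain ⟨c, rfl⟩ := (Finsupp.mem_span_range_iff_exists_finsupp).mp hv
    change ‖inner ℂ ψ₀ _‖ ≤ M * ∫ x, ‖_‖ ∂mu
    have h1 := hM' c.support c
    rw [Finsupp.sum]
    have h2 : inner ℂ ψ₀ (∑ a ∈ c.support, c a • (fourierLp 2 a : Lp ℂ 2 mu)) =
        ∑ n ∈ c.support, c n * ν.toFun (char n) := by
      rw [inner_sum]
      refine Finset.sum_congr rfl (fun n _ => ?_)
      rw [inner_smul_right, hinner]
    rw [h2]
    exact h1
  intro v
  have hcl := closed_ineq ψ₀ M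
  have htop := span_fourierLp_closure_eq_top (T := 2 * Real.pi) (p := 2) (by simp)
  have hv : v ∈ (Submodule.span ℂ (Set.range (fourierLp (T := 2 * Real.pi) 2))).topologicalClosure := by
    rw [htop]; trivial
  have hv' : v ∈ closure ((Submodule.span ℂ (Set.range (fourierLp (T := 2 * Real.pi) 2))) :
      Set (Lp ℂ 2 mu)) := hv
  exact (closure_minimal (fun w hw => hspan w hw) hcl) hv'

theorem toCircle_mk (t : ℝ) : toCircle (t : TT) = Circle.exp t := by
  rw [toCircle_apply_mk]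
  congr 1
  field_simp

/-- the pullback of a real analytic function to the additive circle -/
noncomputable def pull (g : RealAnalyticCircle) : C(TT, ℂ) where
  toFun := fun x => (g : Circle → ℂ) (toCircle x)
  continuous_toFun := by
    have h1 : Continuous (fun t : ℝ => (g : Circle → ℂ) (Circle.exp t)) := by
      rw [continuous_iff_continuousAt]
      intro t
      exact (g.2 t (Set.mem_univ t)).continuousAt
    have h2 : Continuous ((fun x : TT => (g : Circle → ℂ) (toCircle x)) ∘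
        (QuotientAddGroup.mk : ℝ → TT)) := by
      refine h1.congr (fun t => ?_)
      simp only [Function.comp]
      rw [toCircle_mk]
    exact (QuotientAddGroup.isQuotientMap_mk (N := AddSubgroup.zmultiples (2 * Real.pi))).continuous_iff.mpr h2

theorem pull_coeff_decay (g : RealAnalyticCircle) :
    ∃ ρ : ℝ, 0 < ρ ∧ ρ < 1 ∧
      Summable (fun n : ℤ => ‖fourierCoeff (pull g) n‖ * (ρ⁻¹) ^ n.natAbs) := by
  have hper : Function.Periodic (fun t : ℝ => (g : Circle → ℂ) (Circle.exp t)) (2 * Real.pi) := by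
    intro t
    simp only []
    rw [Circle.exp_add_two_pi]
  obtain ⟨δ, hδ, H, hH, hHr, hHp⟩ := strip_ext g.2 hper
  have hs0 : 0 < δ / 2 := by positivity
  have hs : δ / 2 < δ := by linarith
  obtain ⟨M, hM⟩ := fourier_decay hH hHr hHp hs0 hs
  set q : ℝ := Real.exp (-(δ / 2)) with hq
  have hq0 : 0 < q := Real.exp_pos _
  have hq1 : q < 1 := by rw [hq, Real.exp_lt_one_iff]; linarith
  obtain ⟨ρ, hqρ, hρ1⟩ := exists_between hq1
  have hρ0 : 0 < ρ := hq0.trans hqρ
  refine ⟨ρ, hρ0, hρ1, ?_⟩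
  have hcoef : ∀ n : ℤ, ‖fourierCoeff (pull g) n‖ ≤ (2 * Real.pi)⁻¹ * (M * q ^ n.natAbs) := by
    intro n
    rw [fourierCoeff_eq_intervalIntegral (pull g) n 0, norm_smul]
    have h1 : ‖(1 / (2 * Real.pi) : ℝ)‖ = (2 * Real.pi)⁻¹ := by
      rw [one_div, norm_inv, Real.norm_of_nonneg Real.two_pi_pos.le]
    rw [h1]
    gcongr
    have h2 : ∫ x in (0 : ℝ)..0 + 2 * Real.pi, fourier (-n) (x : TT) • pull g (x : TT) =
        ∫ x in (0 : ℝ)..(2 * Real.pi), (g : Circle → ℂ) (Circle.exp x) *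
          Complex.exp (-(Complex.I * n * x)) := by
      rw [zero_add]
      refine intervalIntegral.integral_congr (fun x _ => ?_)
      rw [smul_eq_mul, mul_comm]
      congr 1
      · change (g : Circle → ℂ) (toCircle (x : TT)) = _
        rw [toCircle_mk]
      · rw [fourier_eq, toCircle_mk, Circle.coe_exp, ← Complex.exp_int_mul]
        congr 1
        push_cast
        ring
    rw [h2]
    refine (hM n).trans (le_of_eq ?_)
    congr 1
    rw [hq, ← Real.exp_nat_mul]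
    congr 1
    have : ((n.natAbs : ℕ) : ℝ) = |(n : ℝ)| := by
      rw [Nat.cast_natAbs]; simp
    rw [this]
    ring
  have h3 := (geom_summable (q := q / ρ) (by positivity) ((div_lt_one hρ0).mpr hqρ)).mul_left
    ((2 * Real.pi)⁻¹ * M)
  refine Summable.of_nonneg_of_le (fun n => by positivity) (fun n => ?_) h3
  calc ‖fourierCoeff (pull g) n‖ * (ρ⁻¹) ^ n.natAbs
      ≤ (2 * Real.pi)⁻¹ * (M * q ^ n.natAbs) * (ρ⁻¹) ^ n.natAbs := by
        gcongr
        exact hcoef n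
    _ = (2 * Real.pi)⁻¹ * M * (q / ρ) ^ n.natAbs := by
        rw [div_eq_mul_inv, mul_pow]; ring

theorem main (ν : AnalyticFunctional) (C : ℝ)
    (h : ∀ z (hz : ‖z‖ < 1), ‖biharmonicTransform ν z hz‖ ≤
      C * (1 + Real.log ((1 + ‖z‖) / (1 - ‖z‖)))) :
    ∃ φ : ℝ → ℂ, Measurable φ ∧ Function.Periodic φ (2 * Real.pi) ∧
      (∃ M : ℝ, ∀ t, ‖φ t‖ ≤ M) ∧
      ∀ g : RealAnalyticCircle, ν.toFun g = (2 * Real.pi : ℂ)⁻¹ *
        ∫ t in (0 : ℝ)..(2 * Real.pi), (g : Circle → ℂ) (Circle.exp t) * φ t := by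
  classical
  set M : ℝ := 2 * |C| with hMdef
  have hM0 : 0 ≤ M := by positivity
  obtain ⟨ψ₀, hin, hbd⟩ := exists_density ν M (trig_ineq ν C h) hM0
  have hmeas : Measurable (ψ₀ : TT → ℂ) := (Lp.stronglyMeasurable ψ₀).measurable
  let ψ₁ : TT → ℂ := fun x => if ‖ψ₀ x‖ ≤ M then (starRingEnd ℂ) (ψ₀ x) else 0
  have hψ₁m : Measurable ψ₁ :=
    Measurable.ite (measurableSet_le hmeas.norm measurable_const)
      (Complex.continuous_conj.measurable.comp hmeas) measurable_const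
  have hψ₁b : ∀ x, ‖ψ₁ x‖ ≤ M := by
    intro x
    simp only [ψ₁]
    split_ifs with hx
    · rw [RCLike.norm_conj]; exact hx
    · simpa using hM0
  have hψ₁ae : ∀ᵐ x ∂mu, ψ₁ x = (starRingEnd ℂ) (ψ₀ x) := by
    filter_upwards [hbd] with x hx
    simp only [ψ₁, hx, if_true]
  let σ : Circle → TT := homeomorphCircle'.symm
  have hσe : ∀ t : ℝ, σ (Circle.exp t) = (t : TT) := by
    intro t
    change homeomorphCircle'.symm (Circle.exp t) = (t : TT)
    rw [← homeomorphCircle'_apply_mk, Homeomorph.symm_apply_apply]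
  refine ⟨fun t => ψ₁ (t : TT), hψ₁m.comp (AddCircle.measurable_mk'), ?_,
    ⟨M, fun ξ => hψ₁b _⟩, fun g => ?_⟩
  · intro t
    change ψ₁ ((t + 2 * Real.pi : ℝ) : TT) = ψ₁ (t : TT)
    rw [AddCircle.coe_add_period]
  -- integral form
  have hint : (2 * Real.pi : ℂ)⁻¹ *
        ∫ t in (0 : ℝ)..(2 * Real.pi), (g : Circle → ℂ) (Circle.exp t) * ψ₁ (t : TT) =
      ∫ x, pull g x * ψ₁ x ∂mu := by
    rw [integral_haarAddCircle, ← AddCircle.intervalIntegral_preimage (2 * Real.pi) 0, zero_add]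
    rw [Complex.real_smul]
    congr 1
    · push_cast; rfl
    · refine intervalIntegral.integral_congr (fun t _ => ?_)
      congr 1
      change _ = (g : Circle → ℂ) (toCircle (t : TT))
      rw [toCircle_mk]
  rw [hint]
  let G : Lp ℂ 2 mu := ContinuousMap.toLp (E := ℂ) 2 mu ℂ (pull g)
  have hG : (G : TT → ℂ) =ᵐ[mu] pull g := ContinuousMap.coeFn_toLp (E := ℂ) mu (pull g)
  have h1 : inner ℂ ψ₀ G = ∫ x, pull g x * ψ₁ x ∂mu := by
    rw [L2.inner_def]
    refine integral_congr_ae ?_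
    filter_upwards [hG, hψ₁ae] with x hx hx'
    rw [hx, hx', RCLike.inner_apply]
  rw [← h1]
  -- series
  obtain ⟨ρ, hρ0, hρ1, hsum⟩ := pull_coeff_decay g
  have hs0 : Summable (fourierCoeff (pull g)) := by
    refine Summable.of_norm_bounded hsum (fun n => ?_)
    have h3 : 1 ≤ (ρ⁻¹) ^ n.natAbs := one_le_pow₀ ((one_le_inv₀ hρ0).mpr hρ1.le)
    have := norm_nonneg (fourierCoeff (pull g) n)
    nlinarith
  have h2 : HasSum (fun n : ℤ => fourierCoeff (pull g) n * ν.toFun (char n)) (ν.toFun g) := by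
    refine nu_hasSum ν g (fun n => fourierCoeff (pull g) n) (fun n => n) hρ0 hρ1 hsum ?_
    intro ξ
    have h3 := has_pointwise_sum_fourier_series_of_summable hs0 (σ ξ)
    have hσ' : toCircle (σ ξ) = ξ := by
      obtain ⟨t, rfl⟩ := Circle.exp_surjective ξ
      rw [hσe, toCircle_mk]
    have h4 : pull g (σ ξ) = (g : Circle → ℂ) ξ := by
      change (g : Circle → ℂ) (toCircle (σ ξ)) = _
      rw [hσ']
    rw [h4] at h3
    refine hsc (fun n => ?_) h3
    rw [fourier_eq, hσ', smul_eq_mul]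
  have h5 : HasSum (fun n : ℤ => fourierCoeff (pull g) n * ν.toFun (char n)) (inner ℂ ψ₀ G) := by
    have h6 := hasSum_fourier_series_L2 (T := 2 * Real.pi) G
    have h7 := h6.mapL (innerSL ℂ ψ₀)
    refine hsc (fun n => ?_) h7
    rw [innerSL_apply_apply, inner_smul_right, hin]
    congr 1
    exact (fourierCoeff_toLp (T := 2 * Real.pi) (pull g) n).symm
  exact h2.unique h5

end Pool.Agent.Lib.Biharm
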